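import Pool.Agent.H25.LE.Defs

/-!
Expansion of powers and products of the integers `n_j`.
-/

namespace Pool.Agent.H25.LE

open Finset

/-- truncated sum of a power series -/
noncomputable def tr (f : PowerSeries ℝ) (R : ℕ) (t : ℝ) : ℝ :=
  (PowerSeries.trunc (R + 1) f).eval t

lemma tr_eq (f : PowerSeries ℝ) (R : ℕ) (t : ℝ) :
    tr f R t = ∑ k ∈ range (R + 1), PowerSeries.coeff k f * t ^ k := by
  unfold tr
  rw [Polynomial.eval, PowerSeries.eval₂_trunc_eq_sum_range]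
  simp

lemma eval_bdd (p : Polynomial ℝ) : ∃ K : ℝ, 0 ≤ K ∧ ∀ t : ℝ, 0 ≤ t → t ≤ 1 → |p.eval t| ≤ K := by
  refine ⟨∑ i ∈ range (p.natDegree + 1), |p.coeff i|, sum_nonneg (fun _ _ => abs_nonneg _),
    fun t h0 h1 => ?_⟩
  rw [Polynomial.eval_eq_sum_range]
  calc |∑ i ∈ range (p.natDegree + 1), p.coeff i * t ^ i|
      ≤ ∑ i ∈ range (p.natDegree + 1), |p.coeff i * t ^ i| := abs_sum_le_sum_abs _ _
    _ ≤ _ := by
        apply sum_le_sum
        intro i _
        rw [abs_mul, abs_of_nonneg (pow_nonneg h0 i)]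
        exact mul_le_of_le_one_right (abs_nonneg _) (pow_le_one₀ h0 h1)

/-- multiplication of expansions -/
lemma tr_mul (f h : PowerSeries ℝ) (R : ℕ) : ∃ K : ℝ, 0 ≤ K ∧ ∀ t : ℝ, 0 ≤ t → t ≤ 1 →
    |tr f R t * tr h R t - tr (f * h) R t| ≤ K * t ^ (R + 1) := by
  have hdvd : (Polynomial.X : Polynomial ℝ) ^ (R + 1) ∣
      PowerSeries.trunc (R + 1) f * PowerSeries.trunc (R + 1) h -
        PowerSeries.trunc (R + 1) (f * h) := by
    rw [Polynomial.X_pow_dvd_iff]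
    intro d hd
    rw [Polynomial.coeff_sub, PowerSeries.coeff_trunc, if_pos hd, Polynomial.coeff_mul,
      PowerSeries.coeff_mul, sub_eq_zero]
    apply sum_congr rfl
    intro x hx
    rw [Finset.HasAntidiagonal.mem_antidiagonal] at hx
    rw [PowerSeries.coeff_trunc, PowerSeries.coeff_trunc, if_pos (by omega), if_pos (by omega)]
  obtain ⟨Q, hQ⟩ := hdvd
  obtain ⟨K, hK, hb⟩ := eval_bdd Q
  refine ⟨K, hK, fun t h0 h1 => ?_⟩
  have e : tr f R t * tr h R t - tr (f * h) R t = t ^ (R + 1) * Q.eval t := by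
    unfold tr
    rw [← Polynomial.eval_mul, ← Polynomial.eval_sub, hQ]
    simp
  rw [e, abs_mul, abs_of_nonneg (by positivity), mul_comm]
  exact mul_le_mul_of_nonneg_right (hb t h0 h1) (by positivity)

lemma tr_bdd (f : PowerSeries ℝ) (R : ℕ) : ∃ K : ℝ, 0 ≤ K ∧ ∀ t : ℝ, 0 ≤ t → t ≤ 1 →
    |tr f R t| ≤ K := eval_bdd _

/-- If `u` has the expansion `f`, then `u^b` has the expansion `f^b`. -/
lemma tr_pow (f : PowerSeries ℝ) (R : ℕ) (C : ℝ) (hC : 0 ≤ C) (b : ℕ) : ∃ K : ℝ, 0 ≤ K ∧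
    ∀ t u : ℝ, 0 ≤ t → t ≤ 1 → |u - tr f R t| ≤ C * t ^ (R + 1) →
      |u ^ b - tr (f ^ b) R t| ≤ K * t ^ (R + 1) := by
  induction b with
  | zero =>
    refine ⟨0, le_rfl, fun t u _ _ _ => ?_⟩
    have : tr (1 : PowerSeries ℝ) R t = 1 := by
      rw [tr_eq, sum_eq_single 0]
      · simp
      · intro k _ hk
        rw [PowerSeries.coeff_one, if_neg hk, zero_mul]
      · intro h
        exact absurd (mem_range.mpr (by omega)) h
    rw [pow_zero, pow_zero, this, sub_self, abs_zero, zero_mul]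
  | succ b ih =>
    obtain ⟨K, hK, h⟩ := ih
    obtain ⟨K1, hK1, h1⟩ := tr_mul (f ^ b) f R
    obtain ⟨K2, hK2, h2⟩ := tr_bdd (f ^ b) R
    obtain ⟨K3, hK3, h3⟩ := tr_bdd f R
    refine ⟨K * (K3 + C) + K2 * C + K1, by positivity, fun t u h0 ht hu => ?_⟩
    have ht1 : t ^ (R + 1) ≤ 1 := pow_le_one₀ h0 ht
    have ht0 : 0 ≤ t ^ (R + 1) := by positivity
    have hub : |u| ≤ K3 + C := by
      have e1 : |u| ≤ |u - tr f R t| + |tr f R t| := by
        have := abs_add_le (u - tr f R t) (tr f R t)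
        rwa [sub_add_cancel] at this
      have e2 : C * t ^ (R + 1) ≤ C := mul_le_of_le_one_right hC ht1
      have := h3 t h0 ht
      linarith
    have e : u ^ (b + 1) - tr (f ^ (b + 1)) R t =
        (u ^ b - tr (f ^ b) R t) * u + tr (f ^ b) R t * (u - tr f R t) +
          (tr (f ^ b) R t * tr f R t - tr (f ^ b * f) R t) := by
      rw [pow_succ f b]; ring
    rw [e]
    have a1 : |(u ^ b - tr (f ^ b) R t) * u| ≤ K * t ^ (R + 1) * (K3 + C) := by
      rw [abs_mul]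
      exact mul_le_mul (h t u h0 ht hu) hub (abs_nonneg _) (by positivity)
    have a2 : |tr (f ^ b) R t * (u - tr f R t)| ≤ K2 * (C * t ^ (R + 1)) := by
      rw [abs_mul]
      exact mul_le_mul (h2 t h0 ht) hu (abs_nonneg _) hK2
    have a3 := h1 t h0 ht
    calc |(u ^ b - tr (f ^ b) R t) * u + tr (f ^ b) R t * (u - tr f R t) +
          (tr (f ^ b) R t * tr f R t - tr (f ^ b * f) R t)|
        ≤ |(u ^ b - tr (f ^ b) R t) * u| + |tr (f ^ b) R t * (u - tr f R t)| +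
          |tr (f ^ b) R t * tr f R t - tr (f ^ b * f) R t| := abs_add_three _ _ _
      _ ≤ K * t ^ (R + 1) * (K3 + C) + K2 * (C * t ^ (R + 1)) + K1 * t ^ (R + 1) := by linarith
      _ = _ := by ring

lemma phi_neg' (g : PowerSeries ℝ) (b : ℕ) {k : ℤ} (hk : k < 0) : phi g b k = 0 := by
  unfold phi
  rw [if_neg (by omega)]

lemma prod_zpow_eq {I : Type} [Fintype I] {q : ℝ} (hq : 0 < q) (f : I → ℤ) :
    ∏ l, q ^ (f l) = q ^ (∑ l, f l) := by
  classical
  have : ∀ s : Finset I, ∏ l ∈ s, q ^ (f l) = q ^ (∑ l ∈ s, f l) := by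
    intro s
    induction s using Finset.induction_on with
    | empty => simp
    | insert l s hl ih => rw [prod_insert hl, sum_insert hl, zpow_add₀ hq.ne', ih]
  exact this univ

/-- the integers `n_j`, `j ∈ J`, have the expansion `q^j g(q^{-j})` up to order `R` -/
def HasExp (q : ℝ) (g : PowerSeries ℝ) (R : ℕ) (J : Set ℕ) (n : ℕ → ℤ) : Prop :=
  ∃ C : ℝ, ∀ j ∈ J,
    |(n j : ℝ) * (q ^ j)⁻¹ - tr g R (q ^ j)⁻¹| ≤ C * ((q ^ j)⁻¹) ^ (R + 1)

/-- a smaller order is enough -/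
lemma HasExp.mono {q : ℝ} (hq : 1 < q) {g : PowerSeries ℝ} {R R' : ℕ} {J : Set ℕ} {n : ℕ → ℤ}
    (h : HasExp q g R J n) (hR : R' ≤ R) : HasExp q g R' J n := by
  obtain ⟨C, hC⟩ := h
  refine ⟨|C| + ∑ k ∈ Ico (R' + 1) (R + 1), |PowerSeries.coeff k g|, fun j hj => ?_⟩
  set t : ℝ := (q ^ j)⁻¹ with ht
  have hqj : 1 ≤ q ^ j := one_le_pow₀ hq.le
  have ht0 : 0 < t := by rw [ht]; positivity
  have ht1 : t ≤ 1 := inv_le_one_of_one_le₀ hqj
  have h1 := hC j hj
  have e1 : tr g R t = tr g R' t + ∑ k ∈ Ico (R' + 1) (R + 1), PowerSeries.coeff k g * t ^ k := by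
    rw [tr_eq, tr_eq, range_eq_Ico, range_eq_Ico,
      sum_Ico_consecutive _ (Nat.zero_le _) (by omega)]
  have h2 : |∑ k ∈ Ico (R' + 1) (R + 1), PowerSeries.coeff k g * t ^ k| ≤
      (∑ k ∈ Ico (R' + 1) (R + 1), |PowerSeries.coeff k g|) * t ^ (R' + 1) := by
    rw [sum_mul]
    refine (abs_sum_le_sum_abs _ _).trans (sum_le_sum fun k hk => ?_)
    rw [mem_Ico] at hk
    rw [abs_mul, abs_of_pos (pow_pos ht0 k)]
    exact mul_le_mul_of_nonneg_left (pow_le_pow_of_le_one ht0.le ht1 hk.1) (abs_nonneg _)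
  have h3 : C * t ^ (R + 1) ≤ |C| * t ^ (R' + 1) := by
    apply mul_le_mul (le_abs_self C) (pow_le_pow_of_le_one ht0.le ht1 (by omega)) (by positivity)
      (abs_nonneg _)
  have e2 : (n j : ℝ) * t - tr g R' t = ((n j : ℝ) * t - tr g R t) +
      ∑ k ∈ Ico (R' + 1) (R + 1), PowerSeries.coeff k g * t ^ k := by rw [e1]; ring
  rw [e2, add_mul]
  have h4 := abs_add_le ((n j : ℝ) * t - tr g R t)
    (∑ k ∈ Ico (R' + 1) (R + 1), PowerSeries.coeff k g * t ^ k)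
  linarith

/-- the sum in powers of `q^j` -/
noncomputable def FF (q : ℝ) (g : PowerSeries ℝ) (R D : ℕ) (b j : ℕ) : ℝ :=
  ∑ x ∈ Icc (-(R : ℤ)) D, phiR g R b ((b : ℤ) - x) * q ^ ((j : ℤ) * x)

lemma FF_eq (q : ℝ) (hq : 0 < q) (g : PowerSeries ℝ) (R D : ℕ) (b j : ℕ) (hb : b ≤ D) :
    FF q g R D b j = (q ^ j) ^ b * tr (g ^ b) R (q ^ j)⁻¹ := by
  classical
  unfold FF
  have hinj : Set.InjOn (fun k : ℕ => (b : ℤ) - k) (range (R + 1)) := by
    intro k _ k' _ h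
    simp only at h
    omega
  have hsub : (range (R + 1)).image (fun k : ℕ => (b : ℤ) - k) ⊆ Icc (-(R : ℤ)) D := by
    intro x hx
    rw [mem_image] at hx
    obtain ⟨k, hk, rfl⟩ := hx
    rw [mem_range] at hk
    rw [mem_Icc]
    constructor <;> omega
  rw [← sum_subset hsub, sum_image hinj, tr_eq, mul_sum]
  · apply sum_congr rfl
    intro k hk
    rw [mem_range] at hk
    have e1 : (b : ℤ) - ((b : ℤ) - k) = k := by ring
    rw [e1]
    unfold phiR phi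
    rw [if_pos (by omega), if_pos (by omega)]
    simp only [Int.toNat_natCast]
    have e2 : q ^ ((j : ℤ) * ((b : ℤ) - k)) = (q ^ j) ^ b * ((q ^ j)⁻¹) ^ k := by
      rw [mul_sub, zpow_sub₀ hq.ne', zpow_mul, zpow_mul]
      simp only [zpow_natCast]
      rw [inv_pow]
      rfl
    rw [e2]
    ring
  · intro x hx hx'
    have h1 : ¬ (0 ≤ (b : ℤ) - x ∧ (b : ℤ) - x ≤ R) := by
      rintro ⟨h1, h2⟩
      apply hx'
      rw [mem_image]
      exact ⟨((b : ℤ) - x).toNat, mem_range.mpr (by omega), by omega⟩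
    unfold phiR
    split_ifs with h2
    · rw [phi_neg' g b (by omega), zero_mul]
    · rw [zero_mul]

lemma abs_prod_sub {I : Type} [DecidableEq I] (s : Finset I) (u v : I → ℝ) (K ε : ℝ) (hK : 1 ≤ K)
    (hε : 0 ≤ ε) (hu : ∀ l ∈ s, |u l| ≤ K) (hv : ∀ l ∈ s, |v l| ≤ K)
    (huv : ∀ l ∈ s, |u l - v l| ≤ ε) :
    |∏ l ∈ s, u l - ∏ l ∈ s, v l| ≤ s.card * K ^ s.card * ε := by
  induction s using Finset.induction_on with
  | empty => simp
  | insert l s hl ih =>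
    rw [prod_insert hl, prod_insert hl, card_insert_of_notMem hl]
    have ih' := ih (fun l' h => hu l' (mem_insert_of_mem h)) (fun l' h => hv l' (mem_insert_of_mem h))
      (fun l' h => huv l' (mem_insert_of_mem h))
    have h1 := hu l (mem_insert_self _ _)
    have h3 := huv l (mem_insert_self _ _)
    have h4 : |∏ l ∈ s, v l| ≤ K ^ s.card := by
      rw [abs_prod]
      calc ∏ l ∈ s, |v l| ≤ ∏ _l ∈ s, K :=
            prod_le_prod (fun _ _ => abs_nonneg _) (fun l' h => hv l' (mem_insert_of_mem h))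
        _ = _ := by rw [prod_const]
    have hKpos : 0 < K := by linarith
    have e : u l * ∏ l ∈ s, u l - v l * ∏ l ∈ s, v l =
        u l * (∏ l ∈ s, u l - ∏ l ∈ s, v l) + (u l - v l) * ∏ l ∈ s, v l := by ring
    rw [e]
    have a1 : |u l * (∏ l ∈ s, u l - ∏ l ∈ s, v l)| ≤ K * (s.card * K ^ s.card * ε) := by
      rw [abs_mul]
      exact mul_le_mul h1 ih' (abs_nonneg _) hKpos.le
    have a2 : |(u l - v l) * ∏ l ∈ s, v l| ≤ ε * K ^ s.card := by
      rw [abs_mul]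
      exact mul_le_mul h3 h4 (abs_nonneg _) hε
    have a3 : ε * K ^ s.card ≤ ε * K ^ (s.card + 1) := by
      apply mul_le_mul_of_nonneg_left _ hε
      exact pow_le_pow_right₀ hK (by omega)
    calc |u l * (∏ l ∈ s, u l - ∏ l ∈ s, v l) + (u l - v l) * ∏ l ∈ s, v l|
        ≤ |u l * (∏ l ∈ s, u l - ∏ l ∈ s, v l)| + |(u l - v l) * ∏ l ∈ s, v l| := abs_add_le _ _
      _ ≤ K * (s.card * K ^ s.card * ε) + ε * K ^ (s.card + 1) := by linarith
      _ = _ := by push_cast; ring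

variable {I : Type} [Fintype I] [DecidableEq I]

/-- the box of exponents -/
noncomputable def Box (I : Type) [Fintype I] [DecidableEq I] (R D : ℕ) : Finset (I → ℤ) :=
  Fintype.piFinset (fun _ => Icc (-(R : ℤ)) D)

lemma prod_FF (q : ℝ) (hq : 0 < q) (g : PowerSeries ℝ) (R D : ℕ) (a : I → Fin (D + 1))
    (P : I → ℕ) : ∏ l, FF q g R D (a l) (P l) =
      ∑ e ∈ Box I R D, Phi g R a e * q ^ (∑ l, (P l : ℤ) * e l) := by
  unfold FF Box
  rw [prod_univ_sum]
  apply sum_congr rfl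
  intro e _
  rw [prod_mul_distrib]
  unfold Phi
  congr 1
  exact prod_zpow_eq hq _

lemma pow_exp {q : ℝ} (hq : 1 < q) {g : PowerSeries ℝ} {J : Set ℕ} {n : ℕ → ℤ}
    (R D : ℕ) (h : HasExp q g R J n) (hRD : D ≤ R) : ∃ C : ℝ, 1 ≤ C ∧ ∀ b : ℕ, b ≤ D → ∀ j ∈ J,
      ∀ X : ℕ, X ≤ j → j ≤ 2 * X →
      |(n j : ℝ) ^ b| ≤ C * q ^ (2 * (D : ℤ) * X) ∧ |FF q g R D b j| ≤ C * q ^ (2 * (D : ℤ) * X) ∧
      |(n j : ℝ) ^ b - FF q g R D b j| ≤ C * q ^ (((D : ℤ) - R - 1) * X) := by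
  have hq0 : 0 < q := by linarith
  obtain ⟨C0, h0⟩ := h
  have h0' : ∀ j ∈ J, |(n j : ℝ) * (q ^ j)⁻¹ - tr g R (q ^ j)⁻¹| ≤
      |C0| * ((q ^ j)⁻¹) ^ (R + 1) := fun j hj => (h0 j hj).trans
        (mul_le_mul_of_nonneg_right (le_abs_self _) (by positivity))
  choose K hK hpow using fun b : ℕ => tr_pow g R |C0| (abs_nonneg _) b
  choose T hT htr using fun b : ℕ => tr_bdd (g ^ b) R
  set C : ℝ := 1 + ∑ b ∈ range (D + 1), (K b + T b) with hC
  have hsum0 : 0 ≤ ∑ b ∈ range (D + 1), (K b + T b) :=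
    sum_nonneg (fun b _ => add_nonneg (hK b) (hT b))
  have hCb : ∀ b ≤ D, K b + T b ≤ C := by
    intro b hb
    have := single_le_sum (f := fun b => K b + T b) (fun b _ => add_nonneg (hK b) (hT b))
      (mem_range.mpr (Nat.lt_succ_of_le hb))
    rw [hC]; linarith
  refine ⟨C, by rw [hC]; linarith, fun b hb j hj X hXj hjX => ?_⟩
  set t : ℝ := (q ^ j)⁻¹ with ht
  have hqj : 1 ≤ q ^ j := one_le_pow₀ hq.le
  have ht0 : 0 < t := by rw [ht]; positivity
  have ht1 : t ≤ 1 := inv_le_one_of_one_le₀ hqj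
  have hyt : q ^ j * t = 1 := by rw [ht]; exact mul_inv_cancel₀ (by positivity)
  have hy : (q ^ j) ^ b = q ^ ((b : ℤ) * j) := by
    rw [← pow_mul, ← zpow_natCast]; congr 1; push_cast; ring
  have hyb : (q ^ j) ^ b ≤ q ^ (2 * (D : ℤ) * X) := by
    rw [hy]
    apply zpow_le_zpow_right₀ hq.le
    have h1 : (b : ℤ) * j ≤ D * (2 * X) := by
      have : b * j ≤ D * (2 * X) := Nat.mul_le_mul hb hjX
      exact_mod_cast this
    linarith
  have hn : (n j : ℝ) ^ b = (q ^ j) ^ b * ((n j : ℝ) * t) ^ b := by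
    rw [← mul_pow]
    congr 1
    have : q ^ j * ((n j : ℝ) * t) = (n j : ℝ) * (q ^ j * t) := by ring
    rw [this, hyt, mul_one]
  have hFF := FF_eq q hq0 g R D b j hb
  have hp := hpow b t ((n j : ℝ) * t) ht0.le ht1 (h0' j hj)
  have htt := htr b t ht0.le ht1
  have htp : t ^ (R + 1) ≤ 1 := pow_le_one₀ ht0.le ht1
  have hCb' := hCb b hb
  have hKb := hK b
  have hTb := hT b
  have hybpos : 0 < (q ^ j) ^ b := by positivity
  have hnorm : |((n j : ℝ) * t) ^ b| ≤ C := by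
    have e1 : |((n j : ℝ) * t) ^ b| ≤ |((n j : ℝ) * t) ^ b - tr (g ^ b) R t| + |tr (g ^ b) R t| := by
      have := abs_add_le (((n j : ℝ) * t) ^ b - tr (g ^ b) R t) (tr (g ^ b) R t)
      rwa [sub_add_cancel] at this
    have e2 : K b * t ^ (R + 1) ≤ K b := mul_le_of_le_one_right hKb htp
    linarith
  refine ⟨?_, ?_, ?_⟩
  · rw [hn, abs_mul, abs_of_pos hybpos, mul_comm]
    exact mul_le_mul hnorm hyb hybpos.le (by linarith)
  · rw [hFF, abs_mul, abs_of_pos hybpos, mul_comm]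
    exact mul_le_mul (by linarith) hyb hybpos.le (by linarith)
  · rw [hn, hFF, ← mul_sub, abs_mul, abs_of_pos hybpos]
    have e1 : (q ^ j) ^ b * |((n j : ℝ) * t) ^ b - tr (g ^ b) R t| ≤
        (q ^ j) ^ b * (K b * t ^ (R + 1)) := mul_le_mul_of_nonneg_left hp hybpos.le
    have e2 : (q ^ j) ^ b * (K b * t ^ (R + 1)) = K b * q ^ (((b : ℤ) - R - 1) * j) := by
      have : t ^ (R + 1) = q ^ (-((R : ℤ) + 1) * j) := by
        rw [ht, inv_pow, ← pow_mul, ← zpow_natCast, ← zpow_neg]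
        congr 1; push_cast; ring
      rw [hy, this, mul_left_comm, ← zpow_add₀ hq0.ne']
      congr 2; ring
    rw [e2] at e1
    have e3 : q ^ (((b : ℤ) - R - 1) * j) ≤ q ^ (((D : ℤ) - R - 1) * X) := by
      apply zpow_le_zpow_right₀ hq.le
      have h1 : ((b : ℤ) - R - 1) * j ≤ ((D : ℤ) - R - 1) * j := by
        apply mul_le_mul_of_nonneg_right _ (by positivity)
        have : (b : ℤ) ≤ D := by exact_mod_cast hb
        linarith
      have h2 : ((D : ℤ) - R - 1) * j ≤ ((D : ℤ) - R - 1) * X := by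
        apply mul_le_mul_of_nonpos_left _
        · have : (D : ℤ) ≤ R := by exact_mod_cast hRD
          linarith
        · exact_mod_cast hXj
      linarith
    calc (q ^ j) ^ b * |((n j : ℝ) * t) ^ b - tr (g ^ b) R t| ≤ K b * q ^ (((b : ℤ) - R - 1) * j) := e1
      _ ≤ C * q ^ (((D : ℤ) - R - 1) * X) := by
          apply mul_le_mul (by linarith) e3 (by positivity) (by linarith)

/-- expansion of the monomials in the integers `n_{P_l}` -/
lemma prod_exp {q : ℝ} (hq : 1 < q) {g : PowerSeries ℝ} {J : Set ℕ} {n : ℕ → ℤ}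
    (R D : ℕ) (h : HasExp q g R J n) (hRD : D ≤ R) : ∃ C : ℝ, 0 ≤ C ∧ ∀ X : ℕ, ∀ P : I → ℕ,
      (∀ l, P l ∈ J ∧ X ≤ P l ∧ P l ≤ 2 * X) → ∀ a : I → Fin (D + 1),
      |∏ l, (n (P l) : ℝ) ^ (a l : ℕ) - ∑ e ∈ Box I R D, Phi g R a e * q ^ (∑ l, (P l : ℤ) * e l)| ≤
        C * q ^ ((2 * (Fintype.card I : ℤ) * D + D - R - 1) * X) := by
  obtain ⟨C, hC, hb⟩ := pow_exp hq R D h hRD
  have hq0 : 0 < q := by linarith
  refine ⟨(Fintype.card I) * C ^ (Fintype.card I) * C, by positivity, fun X P hP a => ?_⟩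
  rw [← prod_FF q hq0 g R D a P]
  have hKge : 1 ≤ C * q ^ (2 * (D : ℤ) * X) := by
    have : (1 : ℝ) ≤ q ^ (2 * (D : ℤ) * X) := one_le_zpow₀ hq.le (by positivity)
    nlinarith
  have hmain := abs_prod_sub (univ : Finset I) (fun l => (n (P l) : ℝ) ^ (a l : ℕ))
    (fun l => FF q g R D (a l) (P l)) (C * q ^ (2 * (D : ℤ) * X))
    (C * q ^ (((D : ℤ) - R - 1) * X)) hKge (by positivity)
    (fun l _ => (hb (a l) (by have := (a l).isLt; omega) (P l) (hP l).1 X (hP l).2.1 (hP l).2.2).1)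
    (fun l _ => (hb (a l) (by have := (a l).isLt; omega) (P l) (hP l).1 X (hP l).2.1 (hP l).2.2).2.1)
    (fun l _ => (hb (a l) (by have := (a l).isLt; omega) (P l) (hP l).1 X (hP l).2.1 (hP l).2.2).2.2)
  refine hmain.trans (le_of_eq ?_)
  rw [card_univ, mul_pow]
  have e1 : (q ^ (2 * (D : ℤ) * X)) ^ (Fintype.card I) * q ^ (((D : ℤ) - R - 1) * X) =
      q ^ ((2 * (Fintype.card I : ℤ) * D + D - R - 1) * X) := by
    rw [← zpow_natCast, ← zpow_mul, ← zpow_add₀ hq0.ne']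
    congr 1
    ring
  rw [← e1]
  ring

end Pool.Agent.H25.LE
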