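import Pool.Agent.H25.LE.Ind

/-!
From bounded fibres to the count `|J ∩ [1,Y]| = O(Y^{1/h})`.
-/

namespace Pool.Agent.H25.LE

open Finset

lemma window_count {J : Set ℕ} {h Yw C X : ℕ}
    (hb : ∀ (P0 : Fin h → ℕ) (S : Finset (Fin h → ℕ)),
      (∀ P ∈ S, Win J Yw X P ∧ ∀ β ∈ Submodule.span ℚ {(fun _ : Fin h => (1 : ℚ))},
        ∑ l, β l * (P l : ℚ) = ∑ l, β l * (P0 l : ℚ)) → S.card ≤ C)
    (hY : 1 ≤ Yw) (T : Finset ℕ) (hT : ∀ j ∈ T, j ∈ J ∧ X ≤ j ∧ Yw * (j - X) ≤ X) :
    T.card ^ h ≤ C * (2 * h * X + 1) := by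
  classical
  set S : Finset (Fin h → ℕ) := Fintype.piFinset (fun _ => T) with hS
  have hcard : S.card = T.card ^ h := by
    rw [hS, Fintype.card_piFinset_const]
  have hW : ∀ P ∈ S, Win J Yw X P := by
    intro P hP l
    rw [hS, Fintype.mem_piFinset] at hP
    exact hT _ (hP l)
  have hmaps : ∀ P ∈ S, (∑ l, P l) ∈ range (2 * h * X + 1) := by
    intro P hP
    rw [mem_range]
    have h1 : ∑ l, P l ≤ ∑ _l : Fin h, 2 * X := sum_le_sum (fun l _ => (hW P hP).le_two hY l)
    rw [sum_const, card_univ, Fintype.card_fin, smul_eq_mul] at h1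
    have h2 : h * (2 * X) = 2 * h * X := by ring
    omega
  rw [← hcard, card_eq_sum_card_fiberwise hmaps]
  have hfib : ∀ s ∈ range (2 * h * X + 1), (S.filter (fun P => ∑ l, P l = s)).card ≤ C := by
    intro s _
    rcases (S.filter (fun P => ∑ l, P l = s)).eq_empty_or_nonempty with he | ⟨P0, hP0⟩
    · rw [he, card_empty]; exact Nat.zero_le _
    apply hb P0
    intro P hP
    rw [mem_filter] at hP hP0
    refine ⟨hW P hP.1, fun β hβ => ?_⟩
    rw [Submodule.mem_span_singleton] at hβ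
    obtain ⟨c, rfl⟩ := hβ
    have e : ∀ P' : Fin h → ℕ, ∑ l, (c • (fun _ : Fin h => (1 : ℚ))) l * (P' l : ℚ) =
        c * ((∑ l, P' l : ℕ) : ℚ) := by
      intro P'
      push_cast
      rw [mul_sum]
      apply sum_congr rfl
      intro l _
      simp
    rw [e, e, hP.2, hP0.2]
  calc ∑ s ∈ range (2 * h * X + 1), (S.filter (fun P => ∑ l, P l = s)).card
      ≤ ∑ _s ∈ range (2 * h * X + 1), C := sum_le_sum hfib
    _ = C * (2 * h * X + 1) := by rw [sum_const, card_range, smul_eq_mul, mul_comm]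

theorem count_abs {q : ℝ} (hq : 1 < q) {g : PowerSeries ℝ}
    (hg0 : PowerSeries.constantCoeff g ≠ 0) (hg : NoRel g) (h : ℕ) (hh : 1 ≤ h) :
    ∃ R : ℕ, ∀ (J : Set ℕ) (n : ℕ → ℤ), HasExp q g R J n → ∃ K : ℝ, 0 < K ∧
      ∀ Y : ℕ, 1 ≤ Y → ∀ T : Finset ℕ, (∀ j ∈ T, j ∈ J ∧ j ≤ Y) →
        (T.card : ℝ) ≤ K * (Y : ℝ) ^ ((1 : ℝ) / h) := by
  classical
  obtain ⟨R, Yw, C, hYw, hb⟩ := bdd_all hq hg0 hg h h (Submodule.span ℚ {(fun _ => (1 : ℚ))})
    (by omega) (Submodule.mem_span_singleton_self _)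
  refine ⟨R, fun J n hexp => ?_⟩
  obtain ⟨X0, hX0⟩ := hb J n hexp
  have hhpos : (0 : ℝ) < (h : ℝ) := by exact_mod_cast hh
  have hinv : 0 < (1 : ℝ) / h := by positivity
  set p : ℝ := (1 : ℝ) / h with hp
  set c1 : ℝ := ((C : ℝ) * (2 * h + 1)) ^ p with hc1
  have hc10 : 0 ≤ c1 := by positivity
  set θ : ℝ := 1 - 1 / (2 * (Yw : ℝ)) with hθ
  have hYwr : (1 : ℝ) ≤ Yw := by exact_mod_cast hYw
  have hθ1 : θ < 1 := by
    have : 0 < 1 / (2 * (Yw : ℝ)) := by positivity
    rw [hθ]; linarith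
  have hθ0 : 0 ≤ θ := by
    have : 1 / (2 * (Yw : ℝ)) ≤ 1 := by
      rw [div_le_one (by positivity)]; linarith
    rw [hθ]; linarith
  have hv1 : θ ^ p < 1 := Real.rpow_lt_one hθ0 hθ1 hinv
  have hv0 : 0 ≤ θ ^ p := Real.rpow_nonneg hθ0 _
  set X1 : ℕ := 2 * X0 + 4 with hX1
  set K : ℝ := (X1 : ℝ) + 1 + c1 / (1 - θ ^ p) with hK
  have hdiv : 0 ≤ c1 / (1 - θ ^ p) := div_nonneg hc10 (by linarith)
  have hK0 : 0 < K := by
    have : (0 : ℝ) ≤ (X1 : ℝ) := by positivity
    rw [hK]; linarith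
  refine ⟨K, hK0, ?_⟩
  intro Y
  induction Y using Nat.strong_induction_on with
  | _ Y ih =>
    intro hY1 T hT
    have hYr : (1 : ℝ) ≤ Y := by exact_mod_cast hY1
    have hYp : 1 ≤ (Y : ℝ) ^ p := Real.one_le_rpow hYr hinv.le
    by_cases hsmall : Y ≤ X1
    · have hsub : T ⊆ range (Y + 1) := fun j hj => mem_range.mpr (Nat.lt_succ_of_le (hT j hj).2)
      have h1 := card_le_card hsub
      rw [card_range] at h1
      have h2 : (T.card : ℝ) ≤ (X1 : ℝ) + 1 := by
        have : T.card ≤ X1 + 1 := by omega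
        exact_mod_cast this
      calc (T.card : ℝ) ≤ (X1 : ℝ) + 1 := h2
        _ ≤ K := by rw [hK]; linarith
        _ ≤ K * (Y : ℝ) ^ p := le_mul_of_one_le_right hK0.le hYp
    · push Not at hsmall
      set d : ℕ := Y / (2 * Yw) with hd
      have hd2 : 2 * Yw * d ≤ Y := Nat.mul_div_le Y (2 * Yw)
      have hd3 : 2 * d ≤ Y := by
        have : 2 * d ≤ 2 * Yw * d := by
          have := Nat.mul_le_mul_right (2 * d) hYw
          calc 2 * d = 1 * (2 * d) := by ring
            _ ≤ Yw * (2 * d) := this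
            _ = 2 * Yw * d := by ring
        omega
      set X' : ℕ := Y - d - 1 with hX'
      have hX'1 : X' + 1 = Y - d := by omega
      -- the two parts
      have hT1 := ih X' (by omega) (by omega) (T.filter (fun j => j ≤ X'))
        (fun j hj => by
          rw [mem_filter] at hj
          exact ⟨(hT j hj.1).1, hj.2⟩)
      have hT2 := window_count (X := X' + 1) (fun P0 S hS => hX0 (X' + 1) (by omega) P0 S hS) hYw
        (T.filter (fun j => ¬ j ≤ X')) (fun j hj => by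
          rw [mem_filter] at hj
          refine ⟨(hT j hj.1).1, by omega, ?_⟩
          have h1 := (hT j hj.1).2
          have h2 : j - (X' + 1) ≤ d := by omega
          have h3 : Yw * (j - (X' + 1)) ≤ Yw * d := Nat.mul_le_mul_left _ h2
          have h4 : 2 * (Yw * d) ≤ Y := by linarith [hd2, (by ring : 2 * Yw * d = 2 * (Yw * d))]
          omega)
      have hX'θ : (X' : ℝ) ≤ θ * Y := by
        have h1 : (Y : ℝ) / (2 * Yw) < (d : ℝ) + 1 := by
          have := Nat.lt_floor_add_one ((Y : ℝ) / ((2 * Yw : ℕ) : ℝ))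
          rw [Nat.floor_div_eq_div] at this
          push_cast at this
          rw [hd]
          exact_mod_cast this
        have h2 : (X' : ℝ) = Y - d - 1 := by
          rw [hX']
          rw [Nat.cast_sub (by omega), Nat.cast_sub (by omega)]
          simp
        rw [h2, hθ]
        have h3 : (1 - 1 / (2 * (Yw : ℝ))) * Y = Y - Y / (2 * Yw) := by
          field_simp
        rw [h3]
        linarith
      have h1 : (X' : ℝ) ^ p ≤ θ ^ p * (Y : ℝ) ^ p := by
        rw [← Real.mul_rpow hθ0 (by positivity)]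
        exact Real.rpow_le_rpow (by positivity) hX'θ hinv.le
      have h2 : ((T.filter (fun j => ¬ j ≤ X')).card : ℝ) ≤ c1 * (Y : ℝ) ^ p := by
        have h3 : ((T.filter (fun j => ¬ j ≤ X')).card : ℝ) ^ h ≤ (C : ℝ) * (2 * h + 1) * Y := by
          have h4 : ((T.filter (fun j => ¬ j ≤ X')).card : ℝ) ^ h ≤
              (C : ℝ) * (2 * h * ((X' + 1 : ℕ) : ℝ) + 1) := by exact_mod_cast hT2
          have h5 : ((X' + 1 : ℕ) : ℝ) ≤ Y := by
            have : X' + 1 ≤ Y := by omega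
            exact_mod_cast this
          have h6 : (C : ℝ) * (2 * h * ((X' + 1 : ℕ) : ℝ) + 1) ≤ (C : ℝ) * (2 * h * Y + Y) := by
            apply mul_le_mul_of_nonneg_left _ (by positivity)
            have : 2 * (h : ℝ) * ((X' + 1 : ℕ) : ℝ) ≤ 2 * h * Y :=
              mul_le_mul_of_nonneg_left h5 (by positivity)
            linarith
          calc _ ≤ _ := h4
            _ ≤ _ := h6
            _ = _ := by ring
        have h7 : ((T.filter (fun j => ¬ j ≤ X')).card : ℝ) =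
            (((T.filter (fun j => ¬ j ≤ X')).card : ℝ) ^ h) ^ p := by
          rw [← Real.rpow_natCast, ← Real.rpow_mul (Nat.cast_nonneg _), hp, mul_one_div_cancel hhpos.ne',
            Real.rpow_one]
        rw [h7]
        calc (((T.filter (fun j => ¬ j ≤ X')).card : ℝ) ^ h) ^ p
            ≤ ((C : ℝ) * (2 * h + 1) * Y) ^ p := Real.rpow_le_rpow (pow_nonneg (Nat.cast_nonneg _) _) h3 hinv.le
          _ = c1 * (Y : ℝ) ^ p := by
              have e1 : (0 : ℝ) ≤ (C : ℝ) * (2 * h + 1) := by positivity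
              have e2 : (0 : ℝ) ≤ (Y : ℝ) := by positivity
              rw [Real.mul_rpow e1 e2]
      have hsplit : (T.card : ℝ) = ((T.filter (fun j => j ≤ X')).card : ℝ) +
          ((T.filter (fun j => ¬ j ≤ X')).card : ℝ) := by
        exact_mod_cast (card_filter_add_card_filter_not (s := T) (fun j => j ≤ X')).symm
      have hKc : c1 ≤ K * (1 - θ ^ p) := by
        have h8 : 0 < 1 - θ ^ p := by linarith
        have h9 : c1 = c1 / (1 - θ ^ p) * (1 - θ ^ p) := by field_simp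
        rw [h9]
        apply mul_le_mul_of_nonneg_right _ h8.le
        rw [hK]
        have : (0 : ℝ) ≤ (X1 : ℝ) := by positivity
        linarith
      rw [hsplit]
      have h10 : K * (X' : ℝ) ^ p ≤ K * (θ ^ p * (Y : ℝ) ^ p) := mul_le_mul_of_nonneg_left h1 hK0.le
      have h11 : c1 * (Y : ℝ) ^ p ≤ K * (1 - θ ^ p) * (Y : ℝ) ^ p :=
        mul_le_mul_of_nonneg_right hKc (by positivity)
      calc ((T.filter (fun j => j ≤ X')).card : ℝ) + ((T.filter (fun j => ¬ j ≤ X')).card : ℝ)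
          ≤ K * (X' : ℝ) ^ p + c1 * (Y : ℝ) ^ p := add_le_add hT1 h2
        _ ≤ K * (θ ^ p * (Y : ℝ) ^ p) + K * (1 - θ ^ p) * (Y : ℝ) ^ p := add_le_add h10 h11
        _ = K * (Y : ℝ) ^ p := by ring

end Pool.Agent.H25.LE
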