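import Mathlib

/-!
Common definitions for the count of `h`-tuples with multiplicative relations
(`n_j = ∑ g_k q^{j(1-k)}`): coefficients of powers of a power series, and their products.
-/

namespace Pool.Agent.H25.LE

open Finset

/-- `phi g b k` is the coefficient of `t^k` in `g^b` (and `0` for `k < 0`). -/
noncomputable def phi (g : PowerSeries ℝ) (b : ℕ) (k : ℤ) : ℝ :=
  if 0 ≤ k then PowerSeries.coeff k.toNat (g ^ b) else 0

/-- `phi` cut at `k ≤ R`. -/
noncomputable def phiR (g : PowerSeries ℝ) (R : ℕ) (b : ℕ) (k : ℤ) : ℝ :=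
  if k ≤ R then phi g b k else 0

/-- coefficient of `y^e` in `∏_l (N(y_l)^{a_l} cut at order R)`, where `N(y) = y g(1/y)`. -/
noncomputable def Phi {I : Type} [Fintype I] (g : PowerSeries ℝ) (R : ℕ) {D : ℕ}
    (a : I → Fin (D + 1)) (e : I → ℤ) : ℝ :=
  ∏ l, phiR g R (a l) ((a l : ℤ) - e l)

/-- `g` satisfies no algebraic equation over the real polynomials. -/
def NoRel (g : PowerSeries ℝ) : Prop :=
  ∀ (N : ℕ) (Q : Fin (N + 1) → Polynomial ℝ),
    ∑ b, (Q b : PowerSeries ℝ) * g ^ (b : ℕ) = 0 → ∀ b, Q b = 0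

end Pool.Agent.H25.LE
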