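import Pool.Agent.H25.LE.Defs

/-!
Lower bound lemma: on the torus `y^α = W`, `W` large, the expansion of `∑ c_a N(y)^a` in monomials
modulo `α` has a coefficient of size `≥ c₀ max |c_a|` in a fixed finite set of places, whatever the
real coefficients `c_a` are.
-/

namespace Pool.Agent.H25.LE

open Finset

/-- dual weights of a finite linearly independent family of functions -/
lemma dual_weights {ι S : Type} [Fintype ι] [DecidableEq ι] (s : ι → S → ℝ)
    (hs : ∀ κ : ι → ℝ, (∀ x, ∑ i, κ i * s i x = 0) → κ = 0) (i0 : ι) :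
    ∃ w : S →₀ ℝ, ∀ i, (w.sum fun x c => c * s i x) = if i = i0 then 1 else 0 := by
  classical
  let v : S → (ι → ℝ) := fun x i => s i x
  have htop : Submodule.span ℝ (Set.range v) = ⊤ := by
    by_contra hne
    obtain ⟨f, hf0, hf⟩ := Submodule.exists_le_ker_of_lt_top _ (lt_top_iff_ne_top.mpr hne)
    apply hf0
    have hκ : (fun i => f (Pi.single i 1)) = 0 := by
      apply hs
      intro x
      have h1 : f (v x) = 0 := hf (Submodule.subset_span ⟨x, rfl⟩)
      have h2 : v x = ∑ i, (s i x) • (Pi.single i (1 : ℝ) : ι → ℝ) := by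
        ext j
        simp [v, Finset.sum_apply, Pi.single_apply]
      rw [h2, map_sum] at h1
      simp only [map_smul, smul_eq_mul] at h1
      rw [← h1]
      exact sum_congr rfl (fun i _ => mul_comm _ _)
    apply LinearMap.pi_ext'
    intro i
    ext
    simpa using congrFun hκ i
  have hmem : (Pi.single i0 (1 : ℝ) : ι → ℝ) ∈ Submodule.span ℝ (Set.range v) := by
    rw [htop]; trivial
  rw [Finsupp.mem_span_range_iff_exists_finsupp] at hmem
  obtain ⟨w, hw⟩ := hmem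
  refine ⟨w, fun i => ?_⟩
  have := congrFun hw i
  rw [Finsupp.sum, Finset.sum_apply] at this
  rw [Finsupp.sum]
  simpa [v, Pi.single_apply, eq_comm] using this

lemma phi_neg (g : PowerSeries ℝ) (b : ℕ) {k : ℤ} (hk : k < 0) : phi g b k = 0 := by
  unfold phi
  rw [if_neg (by omega)]

lemma phi_zero (g : PowerSeries ℝ) (b : ℕ) : phi g b 0 = (PowerSeries.constantCoeff g) ^ b := by
  unfold phi
  simp

lemma coeff_X_pow_mul_phi (g : PowerSeries ℝ) (b i k : ℕ) :
    PowerSeries.coeff k ((PowerSeries.X : PowerSeries ℝ) ^ i * g ^ b) = phi g b ((k : ℤ) - i) := by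
  rw [PowerSeries.coeff_X_pow_mul']
  unfold phi
  by_cases h : i ≤ k
  · have h1 : ((k : ℤ) - i).toNat = k - i := by omega
    rw [if_pos h, if_pos (by omega), h1]
  · rw [if_neg h, if_neg (by omega)]

/-- independence of the sequences `e' ↦ phi g b (b - e' - n α)`, `0 ≤ b, n ≤ D`. -/
lemma indep (g : PowerSeries ℝ) (hg : NoRel g) (D : ℕ) (α : ℤ) (hα : α ≠ 0)
    (κ : Fin (D + 1) × Fin (D + 1) → ℝ)
    (h : ∀ e : ℤ, ∑ i, κ i * phi g (i.1 : ℕ) (((i.1 : ℕ) : ℤ) - e - ((i.2 : ℕ) : ℤ) * α) = 0) :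
    κ = 0 := by
  classical
  -- exponents
  let A : ℕ := D * α.natAbs + D
  let ex : Fin (D + 1) → Fin (D + 1) → ℕ := fun b n =>
    ((A : ℤ) + ((n : ℕ) : ℤ) * α - ((b : ℕ) : ℤ)).toNat
  have hex : ∀ b n, ((ex b n : ℕ) : ℤ) = (A : ℤ) + ((n : ℕ) : ℤ) * α - ((b : ℕ) : ℤ) := by
    intro b n
    have h1 : ((b : ℕ) : ℤ) ≤ D := by have := b.isLt; omega
    have h2 : ((n : ℕ) : ℤ) ≤ D := by have := n.isLt; omega
    have h3 : -((D : ℤ) * |α|) ≤ ((n : ℕ) : ℤ) * α := by
      have h4 : |((n : ℕ) : ℤ) * α| ≤ (D : ℤ) * |α| := by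
        rw [abs_mul, abs_of_nonneg (by positivity : (0 : ℤ) ≤ ((n : ℕ) : ℤ))]
        exact mul_le_mul_of_nonneg_right h2 (abs_nonneg _)
      have := neg_abs_le (((n : ℕ) : ℤ) * α)
      linarith
    have hA : (A : ℤ) = D * |α| + D := by
      simp only [A]; push_cast; ring
    apply Int.toNat_of_nonneg
    rw [hA]
    linarith
  let P : Fin (D + 1) → Polynomial ℝ := fun b => ∑ n, Polynomial.monomial (ex b n) (κ (b, n))
  have hrel : ∑ b, ((P b : Polynomial ℝ) : PowerSeries ℝ) * g ^ (b : ℕ) = 0 := by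
    ext k
    rw [map_sum, map_zero]
    rw [← h ((A : ℤ) - k), Fintype.sum_prod_type]
    apply sum_congr rfl
    intro b _
    have e1 : ((P b : Polynomial ℝ) : PowerSeries ℝ) =
        ∑ n, (PowerSeries.C (κ (b, n))) * (PowerSeries.X : PowerSeries ℝ) ^ (ex b n) := by
      simp only [P]
      rw [← Polynomial.coeToPowerSeries.ringHom_apply, map_sum]
      apply sum_congr rfl
      intro n _
      rw [Polynomial.coeToPowerSeries.ringHom_apply, Polynomial.coe_monomial,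
        PowerSeries.monomial_eq_mk]
      ext m
      rw [PowerSeries.coeff_mk, PowerSeries.coeff_C_mul, PowerSeries.coeff_X_pow]
      split_ifs <;> simp
    rw [e1, sum_mul, map_sum]
    apply sum_congr rfl
    intro n _
    rw [mul_assoc, PowerSeries.coeff_C_mul, coeff_X_pow_mul_phi]
    congr 2
    rw [hex]
    ring
  have hP := hg D P hrel
  funext i
  obtain ⟨b, n⟩ := i
  have h1 := congrArg (fun p => Polynomial.coeff p (ex b n)) (hP b)
  simp only [P, Polynomial.finsetSum_coeff, Polynomial.coeff_monomial, Polynomial.coeff_zero] at h1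
  rw [sum_eq_single n] at h1
  · simpa using h1
  · intro n' _ hne
    rw [if_neg]
    intro heq
    have h2 := hex b n'
    have h3 := hex b n
    rw [heq] at h2
    have h4 : ((n' : ℕ) : ℤ) * α = ((n : ℕ) : ℤ) * α := by linarith
    have h5 := mul_right_cancel₀ hα h4
    apply hne
    apply Fin.ext
    exact_mod_cast h5
  · intro hn
    exact absurd (mem_univ n) hn

variable {I : Type} [Fintype I] [DecidableEq I]

/-- the triangular map -/
noncomputable def TT (g : PowerSeries ℝ) (D : ℕ) (l1 : I) :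
    ((I → Fin (D + 1)) → ℝ) →ₗ[ℝ] ((I → Fin (D + 1)) → ℝ) where
  toFun c := fun e => ∑ a, if a l1 = e l1 then
    c a * ∏ l ∈ univ.erase l1, phi g (a l : ℕ) (((a l : ℕ) : ℤ) - ((e l : ℕ) : ℤ)) else 0
  map_add' c c' := by
    funext e
    simp only [Pi.add_apply]
    rw [← sum_add_distrib]
    apply sum_congr rfl
    intro a _
    split_ifs
    · ring
    · simp
  map_smul' r c := by
    funext e
    simp only [Pi.smul_apply, smul_eq_mul, RingHom.id_apply]
    rw [mul_sum]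
    apply sum_congr rfl
    intro a _
    split_ifs
    · ring
    · simp

lemma TT_inj (g : PowerSeries ℝ) (hg0 : PowerSeries.constantCoeff g ≠ 0) (D : ℕ) (l1 : I) :
    Function.Injective (TT g D l1) := by
  classical
  rw [← LinearMap.ker_eq_bot, LinearMap.ker_eq_bot']
  intro c hc
  by_contra hne
  have hne' : ∃ a, c a ≠ 0 := by
    by_contra h
    push Not at h
    exact hne (funext h)
  obtain ⟨a0, ha0⟩ := hne'
  let S : Finset (I → Fin (D + 1)) := univ.filter (fun a => c a ≠ 0)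
  have hS : S.Nonempty := ⟨a0, by simp [S, ha0]⟩
  obtain ⟨a, haS, hmax⟩ := exists_max_image S (fun a => ∑ l, ((a l : ℕ))) hS
  have hca : c a ≠ 0 := (mem_filter.mp haS).2
  have h1 := congrFun hc a
  change ∑ a', (if a' l1 = a l1 then
    c a' * ∏ l ∈ univ.erase l1, phi g (a' l : ℕ) (((a' l : ℕ) : ℤ) - ((a l : ℕ) : ℤ)) else 0) = 0 at h1
  rw [sum_eq_single a] at h1
  · rw [if_pos rfl] at h1
    have h2 : ∏ l ∈ univ.erase l1, phi g (a l : ℕ) (((a l : ℕ) : ℤ) - ((a l : ℕ) : ℤ)) ≠ 0 := by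
      rw [prod_ne_zero_iff]
      intro l _
      rw [sub_self, phi_zero]
      exact pow_ne_zero _ hg0
    exact (mul_ne_zero hca h2) h1
  · intro a' _ hne2
    split_ifs with hl1
    · by_cases hz : c a' = 0
      · rw [hz, zero_mul]
      · by_cases hle : ∀ l, (a l : ℕ) ≤ (a' l : ℕ)
        · exfalso
          have hm := hmax a' (by simp [S, hz])
          have heq : ∀ l ∈ univ, ((a l : ℕ)) = ((a' l : ℕ)) := by
            rw [← sum_eq_sum_iff_of_le (fun l _ => hle l)]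
            exact le_antisymm (sum_le_sum (fun l _ => hle l)) hm
          exact hne2 (funext (fun l => Fin.ext (heq l (mem_univ l)).symm))
        · push Not at hle
          obtain ⟨l, hl⟩ := hle
          have hll : l ≠ l1 := by
            rintro rfl
            rw [hl1] at hl
            omega
          rw [prod_eq_zero (i := l) (by simp [hll]) (phi_neg g _ (by omega)), mul_zero]
    · rfl
  · intro h
    exact absurd (mem_univ a) h

lemma TT_low (g : PowerSeries ℝ) (hg0 : PowerSeries.constantCoeff g ≠ 0) (D : ℕ) (l1 : I) :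
    ∃ c1 : ℝ, 0 < c1 ∧ ∀ c, c1 * ‖c‖ ≤ ‖TT g D l1 c‖ := by
  obtain ⟨K, hK, h⟩ := (LinearMap.injective_iff_antilipschitz _).mp (TT_inj g hg0 D l1)
  refine ⟨(K : ℝ)⁻¹, by positivity, fun c => ?_⟩
  have h1 := h.le_mul_dist c 0
  rw [dist_zero_right, map_zero, dist_zero_right] at h1
  rw [inv_mul_le_iff₀ (by positivity)]
  exact h1

lemma phiR_bdd (g : PowerSeries ℝ) (R D : ℕ) : ∃ K : ℝ, 0 ≤ K ∧
    ∀ (b : Fin (D + 1)) (k : ℤ), |phiR g R b k| ≤ K := by
  refine ⟨∑ b : Fin (D + 1), ∑ k : Fin (R + 1), |phi g b ((k : ℕ) : ℤ)|,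
    sum_nonneg (fun _ _ => sum_nonneg (fun _ _ => abs_nonneg _)), fun b k => ?_⟩
  unfold phiR
  split_ifs with h
  · by_cases h0 : 0 ≤ k
    · have hk : k.toNat < R + 1 := by omega
      have e1 : k = (((⟨k.toNat, hk⟩ : Fin (R + 1)) : ℕ) : ℤ) := by
        simp only []; omega
      calc |phi g b k| = |phi g b (((⟨k.toNat, hk⟩ : Fin (R + 1)) : ℕ) : ℤ)| := by rw [← e1]
        _ ≤ ∑ k : Fin (R + 1), |phi g b ((k : ℕ) : ℤ)| :=
          single_le_sum (f := fun k : Fin (R + 1) => |phi g b ((k : ℕ) : ℤ)|)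
            (fun _ _ => abs_nonneg _) (mem_univ _)
        _ ≤ _ := single_le_sum (f := fun b : Fin (D + 1) => ∑ k : Fin (R + 1),
            |phi g b ((k : ℕ) : ℤ)|) (fun _ _ => sum_nonneg (fun _ _ => abs_nonneg _)) (mem_univ b)
    · rw [phi_neg g _ (by omega), abs_zero]
      exact sum_nonneg (fun _ _ => sum_nonneg (fun _ _ => abs_nonneg _))
  · rw [abs_zero]
    exact sum_nonneg (fun _ _ => sum_nonneg (fun _ _ => abs_nonneg _))

omit [DecidableEq I] in
lemma Phi_bdd (g : PowerSeries ℝ) (R D : ℕ) : ∃ K : ℝ, 0 ≤ K ∧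
    ∀ (a : I → Fin (D + 1)) (e : I → ℤ), |Phi g R a e| ≤ K := by
  obtain ⟨K, hK, h⟩ := phiR_bdd g R D
  refine ⟨K ^ (Fintype.card I), by positivity, fun a e => ?_⟩
  unfold Phi
  rw [abs_prod]
  calc ∏ l, |phiR g R (a l) ((a l : ℤ) - e l)| ≤ ∏ _l : I, K :=
        prod_le_prod (fun _ _ => abs_nonneg _) (fun l _ => h _ _)
    _ = _ := by rw [prod_const, card_univ]

/-- the coefficient sum at `e`, modulo `α` -/
noncomputable def uu (g : PowerSeries ℝ) (R D B : ℕ) (α : I → ℤ) (W : ℝ)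
    (c : (I → Fin (D + 1)) → ℝ) (e : I → ℤ) : ℝ :=
  ∑ n ∈ Icc (-(B : ℤ)) B, W ^ n * ∑ a, c a * Phi g R a (e + n • α)

lemma card_mul_norm (D : ℕ) (c : (I → Fin (D + 1)) → ℝ) {K : ℝ} (f : (I → Fin (D + 1)) → ℝ)
    (hf : ∀ a, |f a| ≤ K) :
    |∑ a, c a * f a| ≤ (Fintype.card (I → Fin (D + 1))) * (‖c‖ * K) := by
  calc |∑ a, c a * f a| ≤ ∑ a, |c a * f a| := abs_sum_le_sum_abs _ _
    _ ≤ ∑ _a : I → Fin (D + 1), ‖c‖ * K := by
        apply sum_le_sum
        intro a _
        rw [abs_mul]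
        exact mul_le_mul (norm_le_pi_norm c a) (hf a) (abs_nonneg _) (norm_nonneg _)
    _ = _ := by rw [sum_const, card_univ, nsmul_eq_mul]

/-- split of `uu` in the main part and the small part -/
lemma uu_split (g : PowerSeries ℝ) (R D B : ℕ) (hB : D ≤ B) (α : I → ℤ) (l0 : I) (h0 : 0 < α l0)
    {K : ℝ} (hK : ∀ (a : I → Fin (D + 1)) (e : I → ℤ), |Phi g R a e| ≤ K)
    (W : ℝ) (hW : 1 ≤ W) (c : (I → Fin (D + 1)) → ℝ) (e : I → ℤ) (he : 0 ≤ e l0) :
    |uu g R D B α W c e - ∑ n ∈ range (D + 1), W ^ n * ∑ a, c a * Phi g R a (e + (n : ℤ) • α)| ≤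
      B * (W⁻¹ * ((Fintype.card (I → Fin (D + 1))) * (‖c‖ * K))) := by
  classical
  set F : ℤ → ℝ := fun n => W ^ n * ∑ a, c a * Phi g R a (e + n • α) with hF
  have hsplit : Icc (-(B : ℤ)) B = Ico (-(B : ℤ)) 0 ∪ (range (B + 1)).map Nat.castEmbedding := by
    ext n
    simp only [mem_Icc, mem_union, mem_Ico, mem_map, mem_range, Nat.castEmbedding_apply]
    constructor
    · rintro ⟨h1, h2⟩
      by_cases hn : n < 0
      · exact Or.inl ⟨h1, hn⟩
      · exact Or.inr ⟨n.toNat, by omega, by omega⟩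
    · rintro (⟨h1, h2⟩ | ⟨k, hk, rfl⟩)
      · constructor <;> omega
      · constructor <;> omega
  have hdisj : Disjoint (Ico (-(B : ℤ)) 0) ((range (B + 1)).map Nat.castEmbedding) := by
    rw [disjoint_left]
    intro n hn hn'
    rw [mem_Ico] at hn
    simp only [mem_map, mem_range, Nat.castEmbedding_apply] at hn'
    obtain ⟨k, _, rfl⟩ := hn'
    omega
  have hvan : ∀ n ∈ range (B + 1), n ∉ range (D + 1) → F ((n : ℕ) : ℤ) = 0 := by
    intro n _ hn
    rw [mem_range, not_lt] at hn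
    simp only [hF]
    rw [sum_eq_zero, mul_zero]
    intro a _
    have : Phi g R a (e + (n : ℤ) • α) = 0 := by
      unfold Phi
      apply prod_eq_zero (mem_univ l0)
      have h2 : ((a l0 : ℕ) : ℤ) - (e + (n : ℤ) • α) l0 < 0 := by
        simp only [Pi.add_apply, Pi.smul_apply, smul_eq_mul]
        have h3 : ((a l0 : ℕ) : ℤ) ≤ D := by have := (a l0).isLt; omega
        have h4 : (n : ℤ) * 1 ≤ (n : ℤ) * α l0 := mul_le_mul_of_nonneg_left (by omega) (by omega)
        omega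
      unfold phiR
      rw [phi_neg g _ h2]
      simp
    rw [this, mul_zero]
  have hpos : ∑ n ∈ (range (B + 1)).map Nat.castEmbedding, F n =
      ∑ n ∈ range (D + 1), F ((n : ℕ) : ℤ) := by
    rw [sum_map]
    simp only [Nat.castEmbedding_apply]
    rw [← sum_subset (range_subset_range.mpr (by omega)) hvan]
  have huu : uu g R D B α W c e = ∑ n ∈ Ico (-(B : ℤ)) 0, F n + ∑ n ∈ range (D + 1), F ((n : ℕ) : ℤ) := by
    unfold uu
    rw [hsplit, sum_union hdisj, hpos]
  have hmain : ∑ n ∈ range (D + 1), W ^ n * ∑ a, c a * Phi g R a (e + (n : ℤ) • α) =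
      ∑ n ∈ range (D + 1), F ((n : ℕ) : ℤ) := by
    apply sum_congr rfl
    intro n _
    simp only [hF, zpow_natCast]
  rw [huu, hmain, add_sub_cancel_right]
  have hWpos : 0 < W := by linarith
  calc |∑ n ∈ Ico (-(B : ℤ)) 0, F n| ≤ ∑ n ∈ Ico (-(B : ℤ)) 0, |F n| := abs_sum_le_sum_abs _ _
    _ ≤ ∑ _n ∈ Ico (-(B : ℤ)) 0, (W⁻¹ * ((Fintype.card (I → Fin (D + 1))) * (‖c‖ * K))) := by
        apply sum_le_sum
        intro n hn
        rw [mem_Ico] at hn
        simp only [hF]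
        rw [abs_mul]
        apply mul_le_mul _ (card_mul_norm D c _ (fun a => hK a _)) (abs_nonneg _) (by positivity)
        rw [abs_of_pos (zpow_pos hWpos n), ← zpow_neg_one]
        exact zpow_le_zpow_right₀ hW (by omega)
    _ = _ := by
        rw [sum_const, nsmul_eq_mul, Int.card_Ico]
        congr 1
        have : ((0 : ℤ) - -(B : ℤ)).toNat = B := by omega
        rw [this]

/-- the weighted sum of the main parts is the triangular map -/
lemma weighted (g : PowerSeries ℝ) (R D : ℕ) (α : I → ℤ) (l1 : I) (W : ℝ)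
    (w : Fin (D + 1) → (ℤ →₀ ℝ))
    (hw : ∀ (b0 : Fin (D + 1)) (i : Fin (D + 1) × Fin (D + 1)),
      ((w b0).sum fun x c => c * phi g (i.1 : ℕ)
        (((i.1 : ℕ) : ℤ) - x - ((i.2 : ℕ) : ℤ) * α l1)) = if i = (b0, 0) then 1 else 0)
    (c : (I → Fin (D + 1)) → ℝ) (e : I → Fin (D + 1))
    (hR : ∀ (a : I → Fin (D + 1)) (n : ℕ), n ≤ D → ∀ l, l ≠ l1 →
      ((a l : ℕ) : ℤ) - ((e l : ℕ) : ℤ) - (n : ℤ) * α l ≤ R)
    (hR1 : ∀ (a : I → Fin (D + 1)) (n : ℕ), n ≤ D → ∀ x ∈ (w (e l1)).support,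
      ((a l1 : ℕ) : ℤ) - x - (n : ℤ) * α l1 ≤ R) :
    ((w (e l1)).sum fun x t => t * ∑ n ∈ range (D + 1), W ^ n * ∑ a, c a *
      Phi g R a (Function.update (fun l => ((e l : ℕ) : ℤ)) l1 x + (n : ℤ) • α)) =
      TT g D l1 c e := by
  classical
  have hPhi : ∀ (a : I → Fin (D + 1)) (n : ℕ), n ≤ D → ∀ x ∈ (w (e l1)).support,
      Phi g R a (Function.update (fun l => ((e l : ℕ) : ℤ)) l1 x + (n : ℤ) • α) =
        (∏ l ∈ univ.erase l1, phi g (a l : ℕ) (((a l : ℕ) : ℤ) - ((e l : ℕ) : ℤ) - (n : ℤ) * α l)) *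
          phi g (a l1 : ℕ) (((a l1 : ℕ) : ℤ) - x - (n : ℤ) * α l1) := by
    intro a n hn x hx
    unfold Phi
    rw [← mul_prod_erase univ _ (mem_univ l1), mul_comm]
    congr 1
    · apply prod_congr rfl
      intro l hl
      rw [mem_erase] at hl
      simp only [Pi.add_apply, Pi.smul_apply, smul_eq_mul, Function.update_of_ne hl.1]
      unfold phiR
      rw [if_pos (by have := hR a n hn l hl.1; linarith)]
      congr 1
      ring
    · simp only [Pi.add_apply, Pi.smul_apply, smul_eq_mul, Function.update_self]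
      unfold phiR
      rw [if_pos (by have := hR1 a n hn x hx; linarith)]
      congr 1
      ring
  rw [Finsupp.sum]
  have e1 : ∀ x ∈ (w (e l1)).support, (w (e l1)) x * ∑ n ∈ range (D + 1), W ^ n * ∑ a, c a *
      Phi g R a (Function.update (fun l => ((e l : ℕ) : ℤ)) l1 x + (n : ℤ) • α) =
      ∑ n ∈ range (D + 1), ∑ a, (W ^ n * c a * (∏ l ∈ univ.erase l1,
        phi g (a l : ℕ) (((a l : ℕ) : ℤ) - ((e l : ℕ) : ℤ) - (n : ℤ) * α l))) *
        ((w (e l1)) x * phi g (a l1 : ℕ) (((a l1 : ℕ) : ℤ) - x - (n : ℤ) * α l1)) := by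
    intro x hx
    rw [mul_sum]
    apply sum_congr rfl
    intro n hn
    rw [mem_range] at hn
    rw [mul_sum, mul_sum]
    apply sum_congr rfl
    intro a _
    rw [hPhi a n (by omega) x hx]
    ring
  rw [sum_congr rfl e1, sum_comm]
  have e2 : ∀ n ∈ range (D + 1), ∑ x ∈ (w (e l1)).support, ∑ a, (W ^ n * c a *
      (∏ l ∈ univ.erase l1,
        phi g (a l : ℕ) (((a l : ℕ) : ℤ) - ((e l : ℕ) : ℤ) - (n : ℤ) * α l))) *
        ((w (e l1)) x * phi g (a l1 : ℕ) (((a l1 : ℕ) : ℤ) - x - (n : ℤ) * α l1)) =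
      ∑ a, (W ^ n * c a * (∏ l ∈ univ.erase l1,
        phi g (a l : ℕ) (((a l : ℕ) : ℤ) - ((e l : ℕ) : ℤ) - (n : ℤ) * α l))) *
        (if (a l1 = e l1 ∧ n = 0) then 1 else 0) := by
    intro n hn
    rw [mem_range] at hn
    rw [sum_comm]
    apply sum_congr rfl
    intro a _
    rw [← mul_sum]
    congr 1
    have h1 := hw (e l1) (a l1, ⟨n, hn⟩)
    rw [Finsupp.sum] at h1
    simp only at h1
    rw [h1]
    congr 1
    rw [Prod.mk.injEq, Fin.ext_iff (a := ⟨n, hn⟩)]
    simp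
  rw [sum_congr rfl e2, sum_eq_single 0]
  · change _ = ∑ a, (if a l1 = e l1 then
      c a * ∏ l ∈ univ.erase l1, phi g (a l : ℕ) (((a l : ℕ) : ℤ) - ((e l : ℕ) : ℤ)) else 0)
    apply sum_congr rfl
    intro a _
    by_cases h : a l1 = e l1
    · rw [if_pos ⟨h, rfl⟩, if_pos h, mul_one, pow_zero, one_mul]
      simp
    · rw [if_neg (fun h' => h h'.1), if_neg h, mul_zero]
  · intro n _ hn
    apply sum_eq_zero
    intro a _
    rw [if_neg (fun h' => hn h'.2), mul_zero]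
  · intro h
    exact absurd (mem_range.mpr (by omega)) h

/-- **Lower bound lemma.** -/
theorem low (g : PowerSeries ℝ) (hg0 : PowerSeries.constantCoeff g ≠ 0) (hg : NoRel g) (D : ℕ)
    (α : I → ℤ) (l0 l1 : I) (hl : l0 ≠ l1) (h0 : 0 < α l0) (h1 : α l1 ≠ 0) :
    ∃ (E0 : Finset (I → ℤ)) (c0 : ℝ) (R0 : ℕ), 0 < c0 ∧ ∀ R, R0 ≤ R → ∀ B : ℕ, D ≤ B →
      ∃ W0 : ℝ, ∀ W, W0 ≤ W → ∀ c : (I → Fin (D + 1)) → ℝ,
        ∃ e ∈ E0, c0 * ‖c‖ ≤ |uu g R D B α W c e| := by
  classical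
  have hs : ∀ κ : Fin (D + 1) × Fin (D + 1) → ℝ, (∀ x : ℤ, ∑ i, κ i *
      (fun (i : Fin (D + 1) × Fin (D + 1)) (x : ℤ) => phi g (i.1 : ℕ)
        (((i.1 : ℕ) : ℤ) - x - ((i.2 : ℕ) : ℤ) * α l1)) i x = 0) → κ = 0 :=
    fun κ h => indep g hg D (α l1) h1 κ h
  choose w hw using fun b0 : Fin (D + 1) => dual_weights _ hs (b0, 0)
  obtain ⟨c1, hc1, hT⟩ := TT_low g hg0 D l1
  -- total weight
  set T : ℝ := 1 + ∑ b : Fin (D + 1), ∑ x ∈ (w b).support, |w b x| with hTdef
  have hTpos : 0 < T := by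
    have : 0 ≤ ∑ b : Fin (D + 1), ∑ x ∈ (w b).support, |w b x| :=
      sum_nonneg (fun _ _ => sum_nonneg (fun _ _ => abs_nonneg _))
    rw [hTdef]; linarith
  have hTb : ∀ b : Fin (D + 1), ∑ x ∈ (w b).support, |w b x| ≤ T := by
    intro b
    have h2 := single_le_sum (f := fun b : Fin (D + 1) => ∑ x ∈ (w b).support, |w b x|)
      (fun _ _ => sum_nonneg (fun _ _ => abs_nonneg _)) (mem_univ b)
    rw [hTdef]; linarith
  let E0 : Finset (I → ℤ) := insert 0 ((univ : Finset (I → Fin (D + 1))).biUnion (fun e =>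
    ((w (e l1)).support).image (fun x => Function.update (fun l => ((e l : ℕ) : ℤ)) l1 x)))
  let m : ℕ := ∑ b : Fin (D + 1), ∑ x ∈ (w b).support, x.natAbs
  let R0 : ℕ := D + D * (∑ l, (α l).natAbs) + m
  refine ⟨E0, c1 / (2 * T), R0, by positivity, fun R hR B hB => ?_⟩
  obtain ⟨K, hK0, hK⟩ := Phi_bdd (I := I) g R D
  set M : ℝ := (Fintype.card (I → Fin (D + 1)) : ℝ) with hM
  have hM0 : 0 ≤ M := by positivity
  refine ⟨1 + 2 * T * (B * (M * K)) / c1, fun W hW c => ?_⟩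
  have hW1 : 1 ≤ W := by
    have : 0 ≤ 2 * T * (B * (M * K)) / c1 := by positivity
    linarith
  have hWpos : 0 < W := by linarith
  -- choose the place where the triangular map is large
  obtain ⟨e, he⟩ : ∃ e, ‖TT g D l1 c e‖ = ‖TT g D l1 c‖ := by
    obtain ⟨e, _, he⟩ := exists_max_image univ (fun e => ‖TT g D l1 c e‖)
      ⟨(fun _ => 0 : I → Fin (D + 1)), mem_univ _⟩
    refine ⟨e, le_antisymm (norm_le_pi_norm _ _) ?_⟩
    exact (pi_norm_le_iff_of_nonneg (norm_nonneg _)).mpr (fun e' => he e' (mem_univ _))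
  have hbig : c1 * ‖c‖ ≤ |TT g D l1 c e| := by
    rw [← Real.norm_eq_abs, he]; exact hT c
  have hcond : ∀ (a : I → Fin (D + 1)) (n : ℕ), n ≤ D → ∀ l, ((a l : ℕ) : ℤ) - (n : ℤ) * α l ≤
      D + D * (∑ l, (α l).natAbs : ℕ) := by
    intro a n hn l
    have h2 : ((a l : ℕ) : ℤ) ≤ D := by have := (a l).isLt; omega
    have h3 : -((n : ℤ) * α l) ≤ D * (∑ l, (α l).natAbs : ℕ) := by
      have h4 : -((n : ℤ) * α l) ≤ |(n : ℤ) * α l| := neg_le_abs _
      have h5 : |(n : ℤ) * α l| = (n : ℤ) * ((α l).natAbs : ℤ) := by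
        rw [abs_mul, Int.natCast_natAbs, abs_of_nonneg (by positivity)]
      have h6 : (n : ℤ) * ((α l).natAbs : ℤ) ≤ D * (∑ l, (α l).natAbs : ℕ) := by
        have h7 : (α l).natAbs ≤ ∑ l, (α l).natAbs :=
          single_le_sum (f := fun l => (α l).natAbs) (fun _ _ => Nat.zero_le _) (mem_univ l)
        have h8 : n * (α l).natAbs ≤ D * ∑ l, (α l).natAbs := Nat.mul_le_mul hn h7
        exact_mod_cast h8
      linarith
    linarith
  have hR0 : (R0 : ℤ) ≤ R := by exact_mod_cast hR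
  have hR0' : (R0 : ℤ) = D + D * (∑ l, (α l).natAbs : ℕ) + m := by
    simp only [R0]; push_cast; ring
  have hwt := weighted g R D α l1 W w hw c e
    (by
      intro a n hn l _
      have h2 := hcond a n hn l
      have h3 : (0 : ℤ) ≤ ((e l : ℕ) : ℤ) := by positivity
      have h4 : (0 : ℤ) ≤ (m : ℤ) := by positivity
      linarith)
    (by
      intro a n hn x hx
      have h2 := hcond a n hn l1
      have h3 : x.natAbs ≤ m := by
        calc x.natAbs ≤ ∑ x ∈ (w (e l1)).support, x.natAbs :=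
              single_le_sum (f := fun x : ℤ => x.natAbs) (fun _ _ => Nat.zero_le _) hx
          _ ≤ m := single_le_sum (f := fun b : Fin (D + 1) => ∑ x ∈ (w b).support, x.natAbs)
              (fun _ _ => Nat.zero_le _) (mem_univ (e l1))
      have h4 : -x ≤ (m : ℤ) := by omega
      linarith)
  -- suppose all values are small
  by_contra hcon
  push Not at hcon
  have hsmall : ∀ x ∈ (w (e l1)).support,
      |uu g R D B α W c (Function.update (fun l => ((e l : ℕ) : ℤ)) l1 x)| < c1 / (2 * T) * ‖c‖ := by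
    intro x hx
    apply hcon
    apply mem_insert_of_mem
    rw [mem_biUnion]
    exact ⟨e, mem_univ _, mem_image_of_mem _ hx⟩
  have hzero := hcon 0 (mem_insert_self _ _)
  have hcpos : 0 < ‖c‖ := by
    by_contra hle
    have : ‖c‖ = 0 := le_antisymm (not_lt.mp hle) (norm_nonneg _)
    rw [this, mul_zero] at hzero
    exact absurd hzero (not_lt.mpr (abs_nonneg _))
  set δ : ℝ := B * (W⁻¹ * (M * (‖c‖ * K))) with hδ
  have hmain : ∀ x ∈ (w (e l1)).support,
      |∑ n ∈ range (D + 1), W ^ n * ∑ a, c a *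
        Phi g R a (Function.update (fun l => ((e l : ℕ) : ℤ)) l1 x + (n : ℤ) • α)| ≤
        c1 / (2 * T) * ‖c‖ + δ := by
    intro x hx
    have h2 := uu_split g R D B hB α l0 h0 hK W hW1 c
      (Function.update (fun l => ((e l : ℕ) : ℤ)) l1 x) (by
        rw [Function.update_of_ne hl]
        positivity)
    have h3 := (hsmall x hx).le
    rw [abs_sub_comm] at h2
    have h4 := abs_sub_abs_le_abs_sub (∑ n ∈ range (D + 1), W ^ n * ∑ a, c a *
        Phi g R a (Function.update (fun l => ((e l : ℕ) : ℤ)) l1 x + (n : ℤ) • α))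
        (uu g R D B α W c (Function.update (fun l => ((e l : ℕ) : ℤ)) l1 x))
    linarith
  have hfin : |TT g D l1 c e| ≤ T * (c1 / (2 * T) * ‖c‖ + δ) := by
    rw [← hwt, Finsupp.sum]
    calc |∑ x ∈ (w (e l1)).support, (w (e l1)) x * ∑ n ∈ range (D + 1), W ^ n * ∑ a, c a *
          Phi g R a (Function.update (fun l => ((e l : ℕ) : ℤ)) l1 x + (n : ℤ) • α)|
        ≤ ∑ x ∈ (w (e l1)).support, |(w (e l1)) x * ∑ n ∈ range (D + 1), W ^ n * ∑ a, c a *
          Phi g R a (Function.update (fun l => ((e l : ℕ) : ℤ)) l1 x + (n : ℤ) • α)| :=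
          abs_sum_le_sum_abs _ _
      _ ≤ ∑ x ∈ (w (e l1)).support, |(w (e l1)) x| * (c1 / (2 * T) * ‖c‖ + δ) := by
          apply sum_le_sum
          intro x hx
          rw [abs_mul]
          exact mul_le_mul_of_nonneg_left (hmain x hx) (abs_nonneg _)
      _ = (∑ x ∈ (w (e l1)).support, |(w (e l1)) x|) * (c1 / (2 * T) * ‖c‖ + δ) := by
          rw [sum_mul]
      _ ≤ _ := mul_le_mul_of_nonneg_right (hTb _) (by positivity)
  have h5 : T * (c1 / (2 * T) * ‖c‖ + δ) = c1 * ‖c‖ / 2 + T * δ := by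
    field_simp
  rw [h5] at hfin
  have h6 : c1 * ‖c‖ ≤ 2 * (T * δ) := by linarith
  have h7 : 2 * (T * δ) = ‖c‖ * (2 * T * (B * (M * K))) / W := by
    rw [hδ]; field_simp
  rw [h7, le_div_iff₀ hWpos] at h6
  have h8 : c1 * W ≤ 2 * T * (B * (M * K)) := by
    have : ‖c‖ * (c1 * W) ≤ ‖c‖ * (2 * T * (B * (M * K))) := by linarith
    exact le_of_mul_le_mul_left this hcpos
  have h9 : W ≤ 2 * T * (B * (M * K)) / c1 := by
    rw [le_div_iff₀ hc1]; linarith
  linarith

end Pool.Agent.H25.LE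

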