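import Pool.Agent.H25.LE.Exp
import Pool.Agent.H25.LE.Low

/-!
Classes of exponents modulo `α`.
-/

namespace Pool.Agent.H25.LE

open Finset

variable {I : Type} [Fintype I] [DecidableEq I]

/-- index of `e` along `α` -/
def ndx (α : I → ℤ) (l0 : I) (e : I → ℤ) : ℤ := e l0 / α l0

/-- representative of `e` modulo `α` -/
def rep (α : I → ℤ) (l0 : I) (e : I → ℤ) : I → ℤ := e - ndx α l0 e • α

omit [Fintype I] [DecidableEq I] in
lemma rep_add (α : I → ℤ) (l0 : I) (e : I → ℤ) : e = rep α l0 e + ndx α l0 e • α := by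
  unfold rep; abel

omit [Fintype I] [DecidableEq I] in
lemma ndx_add (α : I → ℤ) (l0 : I) (h0 : 0 < α l0) (e : I → ℤ) (n : ℤ) :
    ndx α l0 (e + n • α) = ndx α l0 e + n := by
  unfold ndx
  simp only [Pi.add_apply, Pi.smul_apply, smul_eq_mul]
  rw [Int.add_mul_ediv_right _ _ h0.ne']

omit [Fintype I] [DecidableEq I] in
lemma rep_add_smul (α : I → ℤ) (l0 : I) (h0 : 0 < α l0) (e : I → ℤ) (n : ℤ) :
    rep α l0 (e + n • α) = rep α l0 e := by
  unfold rep
  rw [ndx_add α l0 h0, add_smul]
  abel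

omit [Fintype I] [DecidableEq I] in
lemma eq_of_rep (α : I → ℤ) (l0 : I) {e e' : I → ℤ} (h : rep α l0 e = rep α l0 e') :
    e = e' + (ndx α l0 e - ndx α l0 e') • α := by
  rw [sub_smul]
  have h1 := rep_add α l0 e
  have h2 := rep_add α l0 e'
  rw [h] at h1
  calc e = rep α l0 e' + ndx α l0 e • α := h1
    _ = (e' - ndx α l0 e' • α) + ndx α l0 e • α := by rw [rep]
    _ = _ := by abel

omit [DecidableEq I] in
lemma dot_rep (α : I → ℤ) (l0 : I) (e : I → ℤ) (P : I → ℕ) :
    ∑ l, (P l : ℤ) * e l = ∑ l, (P l : ℤ) * rep α l0 e l +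
      ndx α l0 e * ∑ l, α l * (P l : ℤ) := by
  rw [mul_sum, ← sum_add_distrib]
  apply sum_congr rfl
  intro l _
  have := congrFun (rep_add α l0 e) l
  simp only [Pi.add_apply, Pi.smul_apply, smul_eq_mul] at this
  conv_lhs => rw [this]
  ring

/-- few classes of large scale -/
lemma class_count (α : I → ℤ) (l0 : I) (h0 : 0 < α l0) : ∃ D : ℕ, 4 ≤ D ∧ ∀ R : ℕ,
    4 * (((Box I R D).filter (fun e => -(2 * (Fintype.card I : ℤ) * D) < ∑ l, e l)).image
      (rep α l0)).card ≤ (D + 1) ^ (Fintype.card I) := by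
  classical
  set N : ℕ := Fintype.card I with hN
  have hN1 : 1 ≤ N := Fintype.card_pos_iff.mpr ⟨l0⟩
  set A : ℕ := ∑ l, (α l).natAbs with hA
  set E : ℕ := 6 * N * (1 + A) + 1 with hE
  set D : ℕ := 4 * (α l0).toNat * E ^ (N - 1) + 4 with hD
  refine ⟨D, by omega, fun R => ?_⟩
  set b : ℕ := 3 * N * D * (1 + A) with hb
  have hsub : ((Box I R D).filter (fun e => -(2 * (N : ℤ) * D) < ∑ l, e l)).image (rep α l0) ⊆
      Fintype.piFinset (fun l => if l = l0 then Ico (0 : ℤ) (α l0) else Icc (-(b : ℤ)) b) := by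
    intro r hr
    rw [mem_image] at hr
    obtain ⟨e, he, rfl⟩ := hr
    rw [mem_filter, Box, Fintype.mem_piFinset] at he
    obtain ⟨hbox, hsum⟩ := he
    have hup : ∀ l, e l ≤ D := fun l => (mem_Icc.mp (hbox l)).2
    have hlow : ∀ l, -(3 * (N : ℤ) * D) ≤ e l := by
      intro l
      have h1 : ∑ l', e l' = e l + ∑ l' ∈ univ.erase l, e l' := by
        rw [add_sum_erase univ _ (mem_univ l)]
      have h2 : ∑ l' ∈ univ.erase l, e l' ≤ ∑ _l' ∈ univ.erase l, (D : ℤ) :=
        sum_le_sum (fun l' _ => hup l')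
      rw [sum_const, card_erase_of_mem (mem_univ l), card_univ, nsmul_eq_mul] at h2
      have h3 : ((Fintype.card I - 1 : ℕ) : ℤ) * D ≤ (N : ℤ) * D := by
        apply mul_le_mul_of_nonneg_right _ (by positivity)
        rw [← hN]
        have : N - 1 ≤ N := Nat.sub_le _ _
        exact_mod_cast this
      linarith
    have habs : ∀ l, |e l| ≤ 3 * (N : ℤ) * D := by
      intro l
      rw [abs_le]
      refine ⟨hlow l, ?_⟩
      have h1 := hup l
      have h2 : (D : ℤ) ≤ 3 * (N : ℤ) * D := by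
        have : 1 * D ≤ 3 * N * D := Nat.mul_le_mul_right D (by omega)
        have h3 : ((1 * D : ℕ) : ℤ) ≤ ((3 * N * D : ℕ) : ℤ) := by exact_mod_cast this
        push_cast at h3
        linarith
      linarith
    rw [Fintype.mem_piFinset]
    intro l
    split_ifs with hl
    · subst hl
      rw [mem_Ico]
      unfold rep ndx
      simp only [Pi.sub_apply, Pi.smul_apply, smul_eq_mul]
      have e1 : e l - e l / α l * α l = e l % α l := by
        have := Int.emod_add_mul_ediv (e l) (α l)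
        linarith
      rw [e1]
      exact ⟨Int.emod_nonneg _ h0.ne', Int.emod_lt_of_pos _ h0⟩
    · rw [mem_Icc, ← abs_le]
      unfold rep ndx
      simp only [Pi.sub_apply, Pi.smul_apply, smul_eq_mul]
      have h1 : |e l0 / α l0| ≤ |e l0| := by
        exact Int.abs_ediv_le_abs _ _
      have h2 : |α l| ≤ (A : ℤ) := by
        rw [← Int.natCast_natAbs]
        have : (α l).natAbs ≤ A :=
          single_le_sum (f := fun l => (α l).natAbs) (fun _ _ => Nat.zero_le _) (mem_univ l)
        exact_mod_cast this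
      have h3 : |e l - e l0 / α l0 * α l| ≤ |e l| + |e l0 / α l0| * |α l| := by
        rw [← abs_mul]
        exact abs_sub _ _
      have h4 : |e l0 / α l0| * |α l| ≤ (3 * (N : ℤ) * D) * A :=
        mul_le_mul (h1.trans (habs l0)) h2 (abs_nonneg _) (by positivity)
      have h5 := habs l
      have h6 : (b : ℤ) = 3 * (N : ℤ) * D * (1 + A) := by rw [hb]; push_cast; ring
      rw [h6]
      linarith
  have hcard := card_le_card hsub
  rw [Fintype.card_piFinset, ← mul_prod_erase univ _ (mem_univ l0)] at hcard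
  rw [if_pos rfl] at hcard
  have hprod : ∏ l ∈ univ.erase l0, (if l = l0 then Ico (0 : ℤ) (α l0) else Icc (-(b : ℤ)) b).card =
      (2 * b + 1) ^ (N - 1) := by
    have : ∀ l ∈ univ.erase l0, (if l = l0 then Ico (0 : ℤ) (α l0) else Icc (-(b : ℤ)) b).card =
        2 * b + 1 := by
      intro l hl
      rw [mem_erase] at hl
      rw [if_neg hl.1, Int.card_Icc]
      omega
    rw [prod_congr rfl this, prod_const, card_erase_of_mem (mem_univ l0), card_univ]
  rw [hprod, Int.card_Ico, sub_zero] at hcard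
  have hbE : 2 * b + 1 ≤ E * (D + 1) := by
    rw [hb, hE]
    nlinarith [Nat.zero_le (N * D * (1 + A)), Nat.zero_le (N * (1 + A))]
  calc 4 * (((Box I R D).filter (fun e => -(2 * (N : ℤ) * D) < ∑ l, e l)).image (rep α l0)).card
      ≤ 4 * ((α l0).toNat * (2 * b + 1) ^ (N - 1)) := Nat.mul_le_mul_left 4 hcard
    _ ≤ 4 * ((α l0).toNat * (E * (D + 1)) ^ (N - 1)) := by
        apply Nat.mul_le_mul_left
        apply Nat.mul_le_mul_left
        exact Nat.pow_le_pow_left hbE _
    _ = (4 * (α l0).toNat * E ^ (N - 1)) * (D + 1) ^ (N - 1) := by rw [mul_pow]; ring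
    _ ≤ (D + 1) * (D + 1) ^ (N - 1) := by
        apply Nat.mul_le_mul_right
        omega
    _ = (D + 1) ^ N := by
        rw [← pow_succ']
        congr 1
        omega

end Pool.Agent.H25.LE
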