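import Pool.Agent.H25.LE.Tie

/-!
Induction on subspaces: a bounded number of `h`-tuples with given values of all forms of a
subspace containing `(1,…,1)`.
-/

namespace Pool.Agent.H25.LE

open Finset

/-- primitive integer multiple of a rational vector -/
lemma exists_primitive {I : Type} [Fintype I] (v : I → ℚ) (hv : ∑ l, v l ≠ 0) :
    ∃ (α : I → ℤ) (t : ℚ), t ≠ 0 ∧ (∀ l, (α l : ℚ) = t * v l) ∧ 0 < ∑ l, α l ∧
      (∀ (β : I → ℤ) (a b : ℤ), a ≠ 0 → a • β = b • α → ∃ k : ℤ, β = k • α) := by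
  classical
  -- clear denominators
  set d : ℕ := ∏ l, (v l).den with hd
  have hd0 : (d : ℚ) ≠ 0 := by
    rw [hd]; push_cast
    exact prod_ne_zero_iff.mpr (fun l _ => by exact_mod_cast (v l).den_ne_zero)
  have hint : ∀ l, ∃ w : ℤ, (w : ℚ) = d * v l := by
    intro l
    have h1 : (v l).den ∣ d := dvd_prod_of_mem _ (mem_univ l)
    obtain ⟨m, hm⟩ := h1
    refine ⟨m * (v l).num, ?_⟩
    rw [hm]
    push_cast
    have h2 : ((v l).den : ℚ) * v l = (v l).num := Rat.den_mul_eq_num (v l)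
    rw [← h2]
    ring
  choose w hw using hint
  have hnon : (univ : Finset I).Nonempty := by
    by_contra hne
    rw [not_nonempty_iff_eq_empty] at hne
    rw [hne] at hv
    simp at hv
  obtain ⟨u, hu, hgcd⟩ := Finset.extract_gcd w hnon
  set G : ℤ := univ.gcd w with hG
  have hsumw : ((∑ l, w l : ℤ) : ℚ) ≠ 0 := by
    push_cast
    have : ∑ l, (w l : ℚ) = d * ∑ l, v l := by
      rw [mul_sum]; exact sum_congr rfl (fun l _ => hw l)
    rw [this]
    exact mul_ne_zero hd0 hv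
  have hG0 : G ≠ 0 := by
    intro h0
    apply hsumw
    have : ∀ l, w l = 0 := fun l => by rw [hu l (mem_univ l), h0, zero_mul]
    simp [this]
  have hwG : ∀ l, w l = G * u l := fun l => hu l (mem_univ l)
  have hsumu : ∑ l, u l ≠ 0 := by
    intro h0
    apply hsumw
    have : ∑ l, w l = G * ∑ l, u l := by
      rw [mul_sum]; exact sum_congr rfl (fun l _ => hwG l)
    rw [this, h0, mul_zero]
    simp
  -- the sign
  obtain ⟨s, hs, hpos⟩ : ∃ s : ℤ, (s = 1 ∨ s = -1) ∧ 0 < s * ∑ l, u l := by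
    rcases lt_or_gt_of_ne hsumu with h | h
    · exact ⟨-1, Or.inr rfl, by linarith⟩
    · exact ⟨1, Or.inl rfl, by linarith⟩
  have hs0 : s ≠ 0 := by rcases hs with h | h <;> rw [h] <;> norm_num
  have hss : s * s = 1 := by rcases hs with h | h <;> rw [h] <;> norm_num
  refine ⟨fun l => s * u l, s * d / G, ?_, ?_, ?_, ?_⟩
  · have h1 : (s : ℚ) ≠ 0 := by exact_mod_cast hs0
    have h2 : (G : ℚ) ≠ 0 := by exact_mod_cast hG0
    exact div_ne_zero (mul_ne_zero h1 hd0) h2
  · intro l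
    have h2 : (G : ℚ) ≠ 0 := by exact_mod_cast hG0
    have h3 : (w l : ℚ) = G * u l := by exact_mod_cast hwG l
    rw [div_mul_eq_mul_div, eq_div_iff h2, mul_assoc, ← hw l, h3]
    push_cast
    ring
  · rw [← mul_sum]; exact hpos
  · intro β a b ha hab
    have hab' : ∀ l, a * β l = b * (s * u l) := fun l => by
      have := congrFun hab l
      simpa using this
    have hdvd : a ∣ b := by
      have h1 : ∀ l ∈ (univ : Finset I), a ∣ b * u l := by
        intro l _
        refine ⟨s * β l, ?_⟩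
        have := hab' l
        calc b * u l = s * s * (b * u l) := by rw [hss, one_mul]
          _ = s * (b * (s * u l)) := by ring
          _ = s * (a * β l) := by rw [this]
          _ = a * (s * β l) := by ring
      have h2 := Finset.dvd_gcd h1
      rw [Finset.gcd_mul_left, hgcd, mul_one] at h2
      exact (dvd_normalize_iff).mp h2
    obtain ⟨k, hk⟩ := hdvd
    refine ⟨k, funext fun l => ?_⟩
    have h1 := hab' l
    rw [hk, mul_assoc] at h1
    have := mul_left_cancel₀ ha h1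
    rw [this]
    simp

/-- bounded number of tuples of a window with given values of all forms of `V` -/
def Bdd (q : ℝ) (g : PowerSeries ℝ) (h : ℕ) (V : Submodule ℚ (Fin h → ℚ)) : Prop :=
  ∃ R Y C : ℕ, 1 ≤ Y ∧ ∀ (J : Set ℕ) (n : ℕ → ℤ), HasExp q g R J n → ∃ X0 : ℕ,
    ∀ X, X0 ≤ X → ∀ (P0 : Fin h → ℕ) (S : Finset (Fin h → ℕ)),
    (∀ P ∈ S, Win J Y X P ∧ ∀ β ∈ V, ∑ l, β l * (P l : ℚ) = ∑ l, β l * (P0 l : ℚ)) → S.card ≤ C

lemma Win.mono {I : Type} {J : Set ℕ} {Y Y' X : ℕ} {P : I → ℕ} (h : Win J Y X P) (hY : Y' ≤ Y) :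
    Win J Y' X P := fun l => ⟨(h l).1, (h l).2.1, (Nat.mul_le_mul_right _ hY).trans (h l).2.2⟩

theorem bdd_step {q : ℝ} (hq : 1 < q) {g : PowerSeries ℝ}
    (hg0 : PowerSeries.constantCoeff g ≠ 0) (hg : NoRel g) (h : ℕ)
    (V : Submodule ℚ (Fin h → ℚ)) (h1 : (fun _ => (1 : ℚ)) ∈ V) (hV : V ≠ ⊤)
    (IH : ∀ V' : Submodule ℚ (Fin h → ℚ), V < V' → Bdd q g h V') : Bdd q g h V := by
  classical
  -- a vector of minimal support
  let Good : (Fin h → ℚ) → Prop := fun v =>
    v ∈ V ∧ (∀ l, v l ≠ 0 → (Pi.single l (1 : ℚ) : Fin h → ℚ) ∉ V) ∧ ∑ l, v l ≠ 0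
  have hex : ∃ m, ∃ v, Good v ∧ (univ.filter (fun l => v l ≠ 0)).card = m := by
    let NL : Finset (Fin h) := univ.filter (fun l => (Pi.single l (1 : ℚ) : Fin h → ℚ) ∉ V)
    have hNL : NL.Nonempty := by
      by_contra hne
      rw [not_nonempty_iff_eq_empty] at hne
      apply hV
      rw [eq_top_iff]
      intro v _
      have h2 : v = ∑ l, (v l) • (Pi.single l (1 : ℚ) : Fin h → ℚ) := by
        ext j
        simp [Finset.sum_apply, Pi.single_apply]
      rw [h2]
      apply Submodule.sum_mem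
      intro l _
      apply Submodule.smul_mem
      by_contra hl
      have : l ∈ NL := mem_filter.mpr ⟨mem_univ _, hl⟩
      rw [hne] at this
      exact absurd this (notMem_empty _)
    let v : Fin h → ℚ := fun l => if l ∈ NL then 1 else 0
    refine ⟨_, v, ⟨?_, ?_, ?_⟩, rfl⟩
    · have h2 : v = (fun _ => (1 : ℚ)) - ∑ l ∈ univ.filter (fun l => l ∉ NL),
          (Pi.single l (1 : ℚ) : Fin h → ℚ) := by
        ext j
        simp only [v, Pi.sub_apply, Finset.sum_apply, Pi.single_apply]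
        rw [sum_ite_eq]
        by_cases hj : j ∈ NL
        · simp [hj]
        · simp [hj]
      rw [h2]
      apply Submodule.sub_mem _ h1
      apply Submodule.sum_mem
      intro l hl
      rw [mem_filter] at hl
      by_contra hl2
      exact hl.2 (mem_filter.mpr ⟨mem_univ _, hl2⟩)
    · intro l hl
      have : l ∈ NL := by
        by_contra hl2
        exact hl (by simp only [v]; rw [if_neg hl2])
      exact (mem_filter.mp this).2
    · have : ∑ l, v l = NL.card := by
        simp only [v]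
        rw [sum_ite_mem, univ_inter, sum_const, nsmul_eq_mul, mul_one]
      rw [this]
      exact_mod_cast hNL.card_pos.ne'
  obtain ⟨v, ⟨hvV, hvNL, hvs⟩, hvcard⟩ := Nat.find_spec hex
  have hmin : ∀ w, Good w → (univ.filter (fun l => v l ≠ 0)).card ≤
      (univ.filter (fun l => w l ≠ 0)).card := by
    intro w hw
    rw [hvcard]
    exact Nat.find_min' hex ⟨w, hw, rfl⟩
  -- the index type
  have hsumI : ∀ f : Fin h → ℚ, (∀ l, v l = 0 → f l = 0) → ∑ l, f l = ∑ i : {l // v l ≠ 0}, f i := by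
    intro f hf
    rw [← Finset.sum_subtype (univ.filter (fun l => v l ≠ 0)) (p := fun l => v l ≠ 0) (by simp) f]
    symm
    apply sum_subset (filter_subset _ _)
    intro l _ hl
    apply hf
    by_contra hne
    exact hl (mem_filter.mpr ⟨mem_univ _, hne⟩)
  obtain ⟨α, t, ht, hαt, hαpos, hprim⟩ := exists_primitive (I := {l // v l ≠ 0}) (fun i => v i)
    (by rw [← hsumI v (fun l hl => hl)]; exact hvs)
  have hα0 : ∀ i, α i ≠ 0 := by
    intro i h0
    have h2 := hαt i
    rw [h0, Int.cast_zero] at h2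
    exact (mul_ne_zero ht i.2) h2.symm
  have hcardI : 2 ≤ Fintype.card {l // v l ≠ 0} := by
    by_contra hlt
    push Not at hlt
    have hne : Nonempty {l // v l ≠ 0} := by
      by_contra hemp
      rw [not_nonempty_iff] at hemp
      rw [univ_eq_empty, sum_empty] at hαpos
      exact lt_irrefl _ hαpos
    obtain ⟨i0⟩ := hne
    have hsub : ∀ i : {l // v l ≠ 0}, i = i0 := by
      have : Subsingleton {l // v l ≠ 0} := Fintype.card_le_one_iff_subsingleton.mp (by omega)
      exact fun i => Subsingleton.elim _ _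
    apply hvNL i0 i0.2
    have h2 : (Pi.single (i0 : Fin h) (1 : ℚ) : Fin h → ℚ) = (v i0)⁻¹ • v := by
      ext j
      simp only [Pi.smul_apply, smul_eq_mul, Pi.single_apply]
      by_cases hj : j = i0
      · rw [if_pos hj, hj, inv_mul_cancel₀ i0.2]
      · rw [if_neg hj]
        have : v j = 0 := by
          by_contra hvj
          exact hj (congrArg Subtype.val (hsub ⟨j, hvj⟩))
        rw [this, mul_zero]
    rw [h2]
    exact Submodule.smul_mem _ _ hvV
  obtain ⟨R1, Y1, C1, Bs, hY1, hBs, hcov1⟩ :=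
    cover hq hg0 hg α hprim hα0 hαpos hcardI
  -- extension of vectors
  let ext : ({l // v l ≠ 0} → ℤ) → (Fin h → ℚ) := fun β l =>
    if hl : v l ≠ 0 then (β ⟨l, hl⟩ : ℚ) else 0
  have hext0 : ∀ β l, v l = 0 → ext β l = 0 := by
    intro β l hl
    simp only [ext]
    rw [dif_neg (by simpa using hl)]
  have hexti : ∀ β (i : {l // v l ≠ 0}), ext β i = β i := by
    intro β i
    simp only [ext]
    rw [dif_pos i.2]
  have hdot : ∀ β (P : Fin h → ℕ), ∑ l, ext β l * (P l : ℚ) =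
      ((∑ i : {l // v l ≠ 0}, β i * (P i : ℤ) : ℤ) : ℚ) := by
    intro β P
    rw [hsumI (fun l => ext β l * (P l : ℚ)) (fun l hl => by rw [hext0 β l hl, zero_mul])]
    push_cast
    apply sum_congr rfl
    intro i _
    rw [hexti]
  have hextα : ext α = t • v := by
    funext l
    simp only [Pi.smul_apply, smul_eq_mul]
    by_cases hl : v l = 0
    · rw [hext0 α l hl, hl, mul_zero]
    · have := hexti α ⟨l, hl⟩
      simp only at this
      rw [this, hαt ⟨l, hl⟩]
  have hαV : ext α ∈ V := by rw [hextα]; exact Submodule.smul_mem _ _ hvV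
  have hnotV : ∀ β ∈ Bs, ext β ∉ V := by
    intro β hβ hβV
    -- all quotients agree
    have hquot : ∀ i : {l // v l ≠ 0}, ∑ l, ext β l = (β i : ℚ) / (α i : ℚ) * ∑ l, ext α l := by
      intro i
      have hαi : (α i : ℚ) ≠ 0 := by exact_mod_cast hα0 i
      by_contra hne
      let w : Fin h → ℚ := ext β - ((β i : ℚ) / (α i : ℚ)) • ext α
      have hw : Good w := by
        refine ⟨Submodule.sub_mem _ hβV (Submodule.smul_mem _ _ hαV), ?_, ?_⟩
        · intro l hl
          apply hvNL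
          intro hv0
          apply hl
          simp only [w, Pi.sub_apply, Pi.smul_apply, smul_eq_mul]
          rw [hext0 β l hv0, hext0 α l hv0, mul_zero, sub_zero]
        · intro h0
          apply hne
          have : ∑ l, w l = ∑ l, ext β l - (β i : ℚ) / (α i : ℚ) * ∑ l, ext α l := by
            simp only [w, Pi.sub_apply, Pi.smul_apply, smul_eq_mul]
            rw [sum_sub_distrib, mul_sum]
          rw [this] at h0
          linarith
      have h2 := hmin w hw
      have h3 : (univ.filter (fun l => w l ≠ 0)).card < (univ.filter (fun l => v l ≠ 0)).card := by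
        apply card_lt_card
        rw [ssubset_iff_of_subset]
        · refine ⟨i, mem_filter.mpr ⟨mem_univ _, i.2⟩, ?_⟩
          intro hmem
          apply (mem_filter.mp hmem).2
          simp only [w, Pi.sub_apply, Pi.smul_apply, smul_eq_mul]
          rw [hexti, hexti]
          field_simp
          ring
        · intro l hl
          rw [mem_filter] at hl
          refine mem_filter.mpr ⟨mem_univ _, fun hv0 => hl.2 ?_⟩
          simp only [w, Pi.sub_apply, Pi.smul_apply, smul_eq_mul]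
          rw [hext0 β l hv0, hext0 α l hv0, mul_zero, sub_zero]
      omega
    -- so `β` is parallel to `α`
    have hσα : ((∑ i, α i : ℤ) : ℚ) = ∑ l, ext α l := by
      rw [hsumI (ext α) (fun l hl => hext0 α l hl)]
      push_cast
      exact sum_congr rfl (fun i _ => (hexti α i).symm)
    have hσβ : ((∑ i, β i : ℤ) : ℚ) = ∑ l, ext β l := by
      rw [hsumI (ext β) (fun l hl => hext0 β l hl)]
      push_cast
      exact sum_congr rfl (fun i _ => (hexti β i).symm)
    apply hBs β hβ (∑ i, α i) (∑ i, β i) hαpos.ne'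
    funext i
    simp only [Pi.smul_apply, smul_eq_mul]
    have hαi : (α i : ℚ) ≠ 0 := by exact_mod_cast hα0 i
    have h2 := hquot i
    rw [← hσα, ← hσβ] at h2
    have h3 : ((∑ i, β i : ℤ) : ℚ) * (α i : ℚ) = (β i : ℚ) * ((∑ i, α i : ℤ) : ℚ) := by
      rw [h2]; field_simp
    have h4 : (∑ i, β i) * α i = β i * ∑ i, α i := by exact_mod_cast h3
    rw [h4, mul_comm]
  -- the induction hypothesis
  have hIH : ∀ β : {l // v l ≠ 0} → ℤ, ∃ R Y C : ℕ, β ∈ Bs → ∀ (J : Set ℕ) (n : ℕ → ℤ),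
      HasExp q g R J n → ∃ X0 : ℕ, ∀ X, X0 ≤ X →
      ∀ (P0 : Fin h → ℕ) (S : Finset (Fin h → ℕ)),
      (∀ P ∈ S, Win J Y X P ∧ ∀ β' ∈ V ⊔ Submodule.span ℚ {ext β},
        ∑ l, β' l * (P l : ℚ) = ∑ l, β' l * (P0 l : ℚ)) → S.card ≤ C := by
    intro β
    by_cases hβ : β ∈ Bs
    · have hlt : V < V ⊔ Submodule.span ℚ {ext β} := by
        rw [lt_iff_le_and_ne]
        refine ⟨le_sup_left, fun heq => hnotV β hβ ?_⟩
        rw [heq]
        exact Submodule.mem_sup_right (Submodule.mem_span_singleton_self _)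
      obtain ⟨R, Y, C, _, hb⟩ := IH _ hlt
      exact ⟨R, Y, C, fun _ => hb⟩
    · exact ⟨0, 0, 0, fun h => absurd h hβ⟩
  choose Rf Yf Cf hf1 using hIH
  refine ⟨R1 + ∑ β ∈ Bs, Rf β, Y1 + ∑ β ∈ Bs, Yf β, C1 * ∑ β ∈ Bs, Cf β, by omega, ?_⟩
  intro J n hexp
  obtain ⟨X1, hcov⟩ := hcov1 J n (hexp.mono hq (by omega))
  have hf2 : ∀ β : {l // v l ≠ 0} → ℤ, ∃ X0 : ℕ, β ∈ Bs → ∀ X, X0 ≤ X →
      ∀ (P0 : Fin h → ℕ) (S : Finset (Fin h → ℕ)),
      (∀ P ∈ S, Win J (Yf β) X P ∧ ∀ β' ∈ V ⊔ Submodule.span ℚ {ext β},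
        ∑ l, β' l * (P l : ℚ) = ∑ l, β' l * (P0 l : ℚ)) → S.card ≤ Cf β := by
    intro β
    by_cases hβ : β ∈ Bs
    · have hle : Rf β ≤ ∑ β ∈ Bs, Rf β := single_le_sum (f := Rf) (fun _ _ => Nat.zero_le _) hβ
      obtain ⟨X0, hX0⟩ := hf1 β hβ J n (hexp.mono hq (by omega))
      exact ⟨X0, fun _ => hX0⟩
    · exact ⟨0, fun h => absurd h hβ⟩
  choose Xf hf using hf2
  refine ⟨X1 + ∑ β ∈ Bs, Xf β, ?_⟩
  intro X hX P0 S hS
  rcases S.eq_empty_or_nonempty with hemp | ⟨Q, hQ⟩
  · rw [hemp, card_empty]; exact Nat.zero_le _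
  have hmono : ∀ β ∈ Bs, Yf β ≤ ∑ β ∈ Bs, Yf β ∧ Xf β ≤ ∑ β ∈ Bs, Xf β ∧
      Cf β ≤ ∑ β ∈ Bs, Cf β := fun β hβ =>
    ⟨single_le_sum (f := Yf) (fun _ _ => Nat.zero_le _) hβ,
      single_le_sum (f := Xf) (fun _ _ => Nat.zero_le _) hβ,
      single_le_sum (f := Cf) (fun _ _ => Nat.zero_le _) hβ⟩
  set γ : ℤ := ∑ i : {l // v l ≠ 0}, α i * (Q i : ℤ) with hγ
  obtain ⟨Hs, hHc, hHB, hHcov⟩ := hcov X (by omega) γ
  have hcovS : ∀ P ∈ S, ∃ x ∈ Hs, ∑ i, x.1 i * (P i : ℤ) = x.2 := by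
    intro P hP
    have hw := (hS P hP).1
    apply hHcov (fun i => P i) (fun i => (hw.mono (by omega)) i)
    have h2 := (hS P hP).2 _ hαV
    have h3 := (hS Q hQ).2 _ hαV
    rw [hdot] at h2 h3
    have h4 : ((∑ i : {l // v l ≠ 0}, α i * (P i : ℤ) : ℤ) : ℚ) = (γ : ℚ) := by
      rw [hγ, h2, ← h3]
    exact_mod_cast h4
  have hsub : S ⊆ Hs.biUnion (fun x => S.filter (fun P => ∑ i, x.1 i * (P i : ℤ) = x.2)) := by
    intro P hP
    obtain ⟨x, hx, hxP⟩ := hcovS P hP
    rw [mem_biUnion]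
    exact ⟨x, hx, mem_filter.mpr ⟨hP, hxP⟩⟩
  have hpiece : ∀ x ∈ Hs, (S.filter (fun P => ∑ i : {l // v l ≠ 0}, x.1 i * (P i : ℤ) = x.2)).card ≤
      ∑ β ∈ Bs, Cf β := by
    intro x hx
    have hxB := hHB x hx
    refine le_trans ?_ (hmono x.1 hxB).2.2
    rcases (S.filter (fun P => ∑ i : {l // v l ≠ 0}, x.1 i * (P i : ℤ) = x.2)).eq_empty_or_nonempty
      with he | ⟨P1, hP1⟩
    · rw [he, card_empty]; exact Nat.zero_le _
    rw [mem_filter] at hP1
    apply hf x.1 hxB X (by have := (hmono x.1 hxB).2.1; omega) P1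
    intro P hP
    rw [mem_filter] at hP
    refine ⟨(hS P hP.1).1.mono (by have := (hmono x.1 hxB).1; omega), ?_⟩
    intro β' hβ'
    rw [Submodule.mem_sup] at hβ'
    obtain ⟨y, hy, z, hz, rfl⟩ := hβ'
    rw [Submodule.mem_span_singleton] at hz
    obtain ⟨c, rfl⟩ := hz
    have e1 : ∀ P' : Fin h → ℕ, ∑ l, (y + c • ext x.1) l * (P' l : ℚ) =
        ∑ l, y l * (P' l : ℚ) + c * ∑ l, ext x.1 l * (P' l : ℚ) := by
      intro P'
      rw [mul_sum, ← sum_add_distrib]
      apply sum_congr rfl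
      intro l _
      simp only [Pi.add_apply, Pi.smul_apply, smul_eq_mul]
      ring
    rw [e1, e1, hdot, hdot, hP.2, hP1.2, (hS P hP.1).2 y hy, (hS P1 hP1.1).2 y hy]
  calc S.card ≤ (Hs.biUnion (fun x => S.filter
        (fun P => ∑ i : {l // v l ≠ 0}, x.1 i * (P i : ℤ) = x.2))).card := card_le_card hsub
    _ ≤ ∑ x ∈ Hs, (S.filter (fun P => ∑ i : {l // v l ≠ 0}, x.1 i * (P i : ℤ) = x.2)).card :=
        card_biUnion_le
    _ ≤ ∑ _x ∈ Hs, ∑ β ∈ Bs, Cf β := sum_le_sum hpiece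
    _ = Hs.card * ∑ β ∈ Bs, Cf β := by rw [sum_const, smul_eq_mul]
    _ ≤ C1 * ∑ β ∈ Bs, Cf β := Nat.mul_le_mul_right _ hHc

theorem bdd_all {q : ℝ} (hq : 1 < q) {g : PowerSeries ℝ}
    (hg0 : PowerSeries.constantCoeff g ≠ 0) (hg : NoRel g) (h : ℕ) :
    ∀ (k : ℕ) (V : Submodule ℚ (Fin h → ℚ)), h - Module.finrank ℚ V ≤ k →
      (fun _ => (1 : ℚ)) ∈ V → Bdd q g h V := by
  intro k
  induction k with
  | zero =>
    intro V hk h1
    have hle : Module.finrank ℚ V ≤ h := by
      have := Submodule.finrank_le V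
      rwa [Module.finrank_fin_fun] at this
    have htop : V = ⊤ := by
      apply Submodule.eq_top_of_finrank_eq
      rw [Module.finrank_fin_fun]
      omega
    refine ⟨0, 1, 1, le_rfl, fun J n _ => ⟨0, fun X _ P0 S hS => ?_⟩⟩
    rw [card_le_one]
    have key : ∀ P ∈ S, P = P0 := by
      intro P hP
      funext l
      have h2 := (hS P hP).2 (Pi.single l 1) (by rw [htop]; trivial)
      simp only [Pi.single_apply, ite_mul, one_mul, zero_mul, sum_ite_eq', mem_univ, if_true] at h2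
      exact_mod_cast h2
    intro P hP P' hP'
    rw [key P hP, key P' hP']
  | succ k ih =>
    intro V hk h1
    have hle : ∀ V : Submodule ℚ (Fin h → ℚ), Module.finrank ℚ V ≤ h := by
      intro V
      have := Submodule.finrank_le V
      rwa [Module.finrank_fin_fun] at this
    by_cases hV : V = ⊤
    · apply ih V _ h1
      rw [hV, finrank_top, Module.finrank_fin_fun]
      omega
    · apply bdd_step hq hg0 hg h V h1 hV
      intro V' hlt
      apply ih V' _ (hlt.le h1)
      have h2 := Submodule.finrank_lt_finrank_of_lt hlt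
      have h3 := hle V'
      omega

end Pool.Agent.H25.LE
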