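import Mathlib

/-!
A real form of Siegel's lemma (pigeonhole).
-/

namespace Pool.Agent.H25.LE

open Finset

lemma siegel {ι κ : Type} [Fintype ι] [Fintype κ] [DecidableEq ι] [DecidableEq κ]
    (A : κ → ι → ℝ) (S η : ℝ) (hS : 0 ≤ S) (hη : 0 < η) (H : ℕ)
    (hA : ∀ (c : ι → ℕ), (∀ a, c a ≤ H) → ∀ r, |∑ a, (c a : ℝ) * A r a| ≤ S)
    (hcard : (2 * S / η + 1) ^ (Fintype.card κ) < ((H : ℝ) + 1) ^ (Fintype.card ι)) :
    ∃ c : ι → ℤ, c ≠ 0 ∧ (∀ a, |c a| ≤ H) ∧ ∀ r, |∑ a, (c a : ℝ) * A r a| ≤ η := by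
  classical
  set N : ℕ := ⌊2 * S / η⌋₊ with hN
  have hb : ∀ (c : ι → Fin (H + 1)) (r : κ),
      0 ≤ (∑ a, ((c a : ℕ) : ℝ) * A r a + S) / η ∧
        (∑ a, ((c a : ℕ) : ℝ) * A r a + S) / η ≤ 2 * S / η := by
    intro c r
    have h := hA (fun a => (c a : ℕ)) (fun a => by have := (c a).isLt; omega) r
    rw [abs_le] at h
    constructor
    · apply div_nonneg _ hη.le
      linarith [h.1]
    · apply div_le_div_of_nonneg_right _ hη.le
      linarith [h.2]
  let f : (ι → Fin (H + 1)) → (κ → Fin (N + 1)) := fun c r =>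
    ⟨⌊(∑ a, ((c a : ℕ) : ℝ) * A r a + S) / η⌋₊,
      Nat.lt_succ_of_le (Nat.floor_le_floor (hb c r).2)⟩
  have hlt : Fintype.card (κ → Fin (N + 1)) < Fintype.card (ι → Fin (H + 1)) := by
    rw [Fintype.card_fun, Fintype.card_fun, Fintype.card_fin, Fintype.card_fin]
    have h1 : ((N : ℝ) + 1) ^ (Fintype.card κ) ≤ (2 * S / η + 1) ^ (Fintype.card κ) := by
      apply pow_le_pow_left₀ (by positivity)
      have := Nat.floor_le (show 0 ≤ 2 * S / η by positivity)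
      linarith
    have h2 := lt_of_le_of_lt h1 hcard
    exact_mod_cast h2
  obtain ⟨c, c', hne, hcc⟩ := Fintype.exists_ne_map_eq_of_card_lt f hlt
  refine ⟨fun a => ((c a : ℕ) : ℤ) - ((c' a : ℕ) : ℤ), ?_, ?_, ?_⟩
  · intro h
    apply hne
    funext a
    have := congrFun h a
    simp only [Pi.zero_apply] at this
    apply Fin.ext
    omega
  · intro a
    have h1 := (c a).isLt
    have h2 := (c' a).isLt
    have h3 : (fun a => ((c a : ℕ) : ℤ) - ((c' a : ℕ) : ℤ)) a = ((c a : ℕ) : ℤ) - ((c' a : ℕ) : ℤ) := rfl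
    rw [h3, abs_le]
    constructor <;> omega
  · intro r
    have h1 := congrArg Fin.val (congrFun hcc r)
    simp only [f] at h1
    have h2 := Nat.floor_le (hb c r).1
    have h3 := Nat.lt_floor_add_one ((∑ a, ((c a : ℕ) : ℝ) * A r a + S) / η)
    have h4 := Nat.floor_le (hb c' r).1
    have h5 := Nat.lt_floor_add_one ((∑ a, ((c' a : ℕ) : ℝ) * A r a + S) / η)
    rw [h1] at h2 h3
    have e1 : ∑ a, ((((c a : ℕ) : ℤ) - ((c' a : ℕ) : ℤ) : ℤ) : ℝ) * A r a =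
        η * ((∑ a, ((c a : ℕ) : ℝ) * A r a + S) / η - (∑ a, ((c' a : ℕ) : ℝ) * A r a + S) / η) := by
      have : ∑ a, ((((c a : ℕ) : ℤ) - ((c' a : ℕ) : ℤ) : ℤ) : ℝ) * A r a =
          ∑ a, ((c a : ℕ) : ℝ) * A r a - ∑ a, ((c' a : ℕ) : ℝ) * A r a := by
        rw [← sum_sub_distrib]
        apply sum_congr rfl
        intro a _
        push_cast
        ring
      rw [this]
      field_simp
      ring
    rw [e1, abs_mul, abs_of_pos hη]
    have h6 : |(∑ a, ((c a : ℕ) : ℝ) * A r a + S) / η - (∑ a, ((c' a : ℕ) : ℝ) * A r a + S) / η| ≤ 1 := by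
      rw [abs_le]
      constructor <;> linarith
    calc η * _ ≤ η * 1 := mul_le_mul_of_nonneg_left h6 hη.le
      _ = η := mul_one η

end Pool.Agent.H25.LE
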