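import Pool.Agent.H25.LE.Cls
import Pool.Agent.H25.LE.Siegel

/-!
The auxiliary polynomial: an integer polynomial of bounded degree vanishing at all tuples of
the window with a given value of `α·P`.
-/

namespace Pool.Agent.H25.LE

open Finset

variable {I : Type} [Fintype I] [DecidableEq I]

/-- coefficient of the class `r` -/
noncomputable def vv (g : PowerSeries ℝ) (R D : ℕ) (α : I → ℤ) (l0 : I) (W : ℝ)
    (c : (I → Fin (D + 1)) → ℝ) (r : I → ℤ) : ℝ :=
  ∑ e ∈ (Box I R D).filter (fun e => rep α l0 e = r),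
    (∑ a, c a * Phi g R a e) * W ^ (ndx α l0 e)

/-- the window -/
def Win (J : Set ℕ) (Y X : ℕ) (P : I → ℕ) : Prop :=
  ∀ l, P l ∈ J ∧ X ≤ P l ∧ Y * (P l - X) ≤ X

omit [Fintype I] [DecidableEq I] in
lemma Win.le_two {J : Set ℕ} {Y X : ℕ} {P : I → ℕ} (h : Win J Y X P) (hY : 1 ≤ Y) (l : I) :
    P l ≤ 2 * X := by
  have h1 := (h l).2.2
  have h2 : 1 * (P l - X) ≤ Y * (P l - X) := Nat.mul_le_mul_right _ hY
  omega

omit [DecidableEq I] in
lemma Win.dot {J : Set ℕ} {Y X : ℕ} {P : I → ℕ} (h : Win J Y X P) (e : I → ℤ)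
    (hY : 4 * ∑ l, (e l).natAbs ≤ Y) :
    |∑ l, (P l : ℤ) * e l - (∑ l, e l) * X| ≤ ((X / 4 : ℕ) : ℤ) := by
  have e1 : ∑ l, (P l : ℤ) * e l - (∑ l, e l) * X = ∑ l, ((P l - X : ℕ) : ℤ) * e l := by
    rw [sum_mul, ← sum_sub_distrib]
    apply sum_congr rfl
    intro l _
    have := (h l).2.1
    push_cast [this]
    ring
  rw [e1]
  have h2 : 4 * |∑ l, ((P l - X : ℕ) : ℤ) * e l| ≤ X := by
    have h3 : |∑ l, ((P l - X : ℕ) : ℤ) * e l| ≤ ∑ l, ((P l - X : ℕ) : ℤ) * ((e l).natAbs : ℤ) := by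
      refine (abs_sum_le_sum_abs _ _).trans (le_of_eq ?_)
      apply sum_congr rfl
      intro l _
      rw [abs_mul, Int.natCast_natAbs, abs_of_nonneg (by positivity)]
    -- each term: 4 * (P l - X) * |e l| * Y' ...
    rcases Nat.eq_zero_or_pos (∑ l, (e l).natAbs) with hz | hpos
    · have : ∀ l, (e l).natAbs = 0 := by
        intro l
        exact (sum_eq_zero_iff.mp hz) l (mem_univ l)
      have h4 : ∑ l, ((P l - X : ℕ) : ℤ) * ((e l).natAbs : ℤ) = 0 := by
        apply sum_eq_zero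
        intro l _
        rw [this l]
        simp
      rw [h4] at h3
      have := abs_nonneg (∑ l, ((P l - X : ℕ) : ℤ) * e l)
      have h5 : |∑ l, ((P l - X : ℕ) : ℤ) * e l| = 0 := le_antisymm h3 this
      rw [h5]
      positivity
    · have hk : ∀ l, (4 * ∑ l, (e l).natAbs) * (P l - X) ≤ X := fun l =>
        (Nat.mul_le_mul_right _ hY).trans (h l).2.2
      have h6 : (∑ l, (e l).natAbs) * (4 * ∑ l, (P l - X) * (e l).natAbs) ≤
          (∑ l, (e l).natAbs) * X := by
        calc (∑ l, (e l).natAbs) * (4 * ∑ l, (P l - X) * (e l).natAbs)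
            = ∑ l, ((4 * ∑ l, (e l).natAbs) * (P l - X)) * (e l).natAbs := by
              rw [mul_sum, mul_sum]
              apply sum_congr rfl
              intro l _
              ring
          _ ≤ ∑ l, X * (e l).natAbs := sum_le_sum (fun l _ => Nat.mul_le_mul_right _ (hk l))
          _ = _ := by rw [← mul_sum, mul_comm]
      have h7 := Nat.le_of_mul_le_mul_left h6 hpos
      have h8 : (4 : ℤ) * ∑ l, ((P l - X : ℕ) : ℤ) * ((e l).natAbs : ℤ) ≤ X := by exact_mod_cast h7
      linarith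
  omega

/-- grouping of the expansion into classes -/
lemma sum_class {q : ℝ} (hq : 1 < q) (g : PowerSeries ℝ) (R D : ℕ) (α : I → ℤ) (l0 : I)
    (c : (I → Fin (D + 1)) → ℝ) (γ : ℤ) (P : I → ℕ) (hP : ∑ l, α l * (P l : ℤ) = γ) :
    ∑ a, c a * ∑ e ∈ Box I R D, Phi g R a e * q ^ (∑ l, (P l : ℤ) * e l) =
      ∑ r ∈ (Box I R D).image (rep α l0), vv g R D α l0 (q ^ γ) c r *
        q ^ (∑ l, (P l : ℤ) * r l) := by
  have hq0 : 0 < q := by linarith
  have e1 : ∑ a, c a * ∑ e ∈ Box I R D, Phi g R a e * q ^ (∑ l, (P l : ℤ) * e l) =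
      ∑ e ∈ Box I R D, (∑ a, c a * Phi g R a e) * q ^ (∑ l, (P l : ℤ) * e l) := by
    simp_rw [mul_sum, sum_mul]
    rw [sum_comm]
    apply sum_congr rfl
    intro e _
    apply sum_congr rfl
    intro a _
    ring
  rw [e1, ← sum_fiberwise_of_maps_to (t := (Box I R D).image (rep α l0)) (g := rep α l0)
    (fun e he => mem_image_of_mem _ he)]
  apply sum_congr rfl
  intro r _
  unfold vv
  rw [sum_mul]
  apply sum_congr rfl
  intro e he
  rw [mem_filter] at he
  rw [dot_rep α l0 e P, hP, zpow_add₀ hq0.ne', he.2, mul_comm (ndx α l0 e) γ, zpow_mul]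
  ring

omit [DecidableEq I] in
lemma Phi_zero_of {g : PowerSeries ℝ} {R D : ℕ} {a : I → Fin (D + 1)} {e : I → ℤ}
    (h : Phi g R a e ≠ 0) : ∀ l, e l ≤ (a l : ℕ) ∧ ((a l : ℕ) : ℤ) - R ≤ e l := by
  intro l
  unfold Phi at h
  rw [prod_ne_zero_iff] at h
  have h1 := h l (mem_univ l)
  unfold phiR at h1
  split_ifs at h1 with h2
  · constructor
    · by_contra h3
      exact h1 (phi_neg g _ (by omega))
    · omega
  · exact absurd rfl h1

omit [DecidableEq I] in
lemma Phi_deg {g : PowerSeries ℝ} {R D : ℕ} {a : I → Fin (D + 1)} {e : I → ℤ}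
    (h : Phi g R a e ≠ 0) : ∑ l, e l ≤ (Fintype.card I : ℤ) * D := by
  calc ∑ l, e l ≤ ∑ _l : I, (D : ℤ) := sum_le_sum (fun l _ => by
        have h1 := (Phi_zero_of h l).1
        have := (a l).isLt
        omega)
    _ = _ := by rw [sum_const, card_univ, nsmul_eq_mul]

/-- sum of all sizes of exponents and representatives -/
noncomputable def YY (I : Type) [Fintype I] [DecidableEq I] (R D : ℕ) (α : I → ℤ) (l0 : I) : ℕ :=
  1 + 4 * (∑ e ∈ Box I R D, (∑ l, (e l).natAbs + ∑ l, (rep α l0 e l).natAbs))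

lemma YY_box {R D : ℕ} {α : I → ℤ} {l0 : I} {e : I → ℤ} (he : e ∈ Box I R D) :
    4 * ∑ l, (e l).natAbs ≤ YY I R D α l0 ∧ 4 * ∑ l, (rep α l0 e l).natAbs ≤ YY I R D α l0 := by
  have h1 := single_le_sum (f := fun e : I → ℤ => (∑ l, (e l).natAbs + ∑ l, (rep α l0 e l).natAbs))
    (fun _ _ => Nat.zero_le _) he
  unfold YY
  constructor <;> omega

/-- the value of `W^{ndx e} q^{|r| X}` -/
lemma scale_le {q : ℝ} (hq : 1 < q) {J : Set ℕ} {Y X : ℕ} {P : I → ℕ} (hw : Win J Y X P)
    {R D : ℕ} {α : I → ℤ} {l0 : I} (hY : YY I R D α l0 ≤ Y) {γ : ℤ}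
    (hP : ∑ l, α l * (P l : ℤ) = γ) {e : I → ℤ} (he : e ∈ Box I R D) :
    (q ^ γ) ^ (ndx α l0 e) * q ^ ((∑ l, rep α l0 e l) * (X : ℤ)) ≤
      q ^ ((∑ l, e l) * (X : ℤ) + 2 * ((X / 4 : ℕ) : ℤ)) := by
  have hq0 : 0 < q := by linarith
  rw [← zpow_mul, ← zpow_add₀ hq0.ne']
  apply zpow_le_zpow_right₀ hq.le
  have h1 := hw.dot e ((YY_box he).1.trans hY)
  have h2 := hw.dot (rep α l0 e) ((YY_box (α := α) (l0 := l0) he).2.trans hY)
  have h3 := dot_rep α l0 e P
  rw [hP] at h3
  rw [abs_le] at h1 h2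
  have h4 := mul_comm γ (ndx α l0 e)
  linarith [h1.2, h2.1]

/-- **The auxiliary polynomial.** -/
theorem auxpol {q : ℝ} (hq : 1 < q) {g : PowerSeries ℝ} {J : Set ℕ} {n : ℕ → ℤ}
    (α : I → ℤ) (l0 : I) (D : ℕ) (hD : 1 ≤ D) (R : ℕ) (h : HasExp q g R J n)
    (hcount : 4 * (((Box I R D).filter (fun e => -(2 * (Fintype.card I : ℤ) * D) < ∑ l, e l)).image
      (rep α l0)).card ≤ (D + 1) ^ (Fintype.card I))
    (hR : 3 * Fintype.card I * D + D ≤ R) (Y : ℕ) (hY : YY I R D α l0 ≤ Y) :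
    ∃ X0 : ℕ, ∀ X, X0 ≤ X → ∀ γ : ℤ, ∃ c : (I → Fin (D + 1)) → ℤ, c ≠ 0 ∧
      (∀ a, |(c a : ℝ)| ≤ q ^ ((Fintype.card I : ℤ) * D * X)) ∧
      ∀ P : I → ℕ, Win J Y X P → ∑ l, α l * (P l : ℤ) = γ →
        ∑ a, c a * ∏ l, (n (P l)) ^ (a l : ℕ) = 0 := by
  classical
  have hq0 : 0 < q := by linarith
  set N : ℕ := Fintype.card I with hN
  have hN1 : 1 ≤ N := Fintype.card_pos_iff.mpr ⟨l0⟩
  set T : Finset (I → ℤ) := ((Box I R D).filter (fun e => -(2 * (N : ℤ) * D) < ∑ l, e l)).image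
      (rep α l0) with hT
  obtain ⟨K, hK0, hK⟩ := Phi_bdd (I := I) g R D
  obtain ⟨Ce, hCe0, hCe⟩ := prod_exp (I := I) hq R D h (by omega)
  set M : ℝ := (Fintype.card (I → Fin (D + 1)) : ℝ) with hM
  have hM0 : 0 ≤ M := by positivity
  set Bx : ℝ := ((Box I R D).card : ℝ) with hBx
  have hBx0 : 0 ≤ Bx := by positivity
  set C1 : ℝ := 2 * (M * Bx * K) + 1 with hC1
  set C2 : ℝ := Bx * (1 + Bx * M * K) + M * Ce with hC2
  have hC20 : 0 ≤ C2 := by positivity
  have hC10 : 0 < C1 := by positivity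
  obtain ⟨n0, hn0⟩ := pow_unbounded_of_one_lt (C1 + C2) hq
  have hY1 : 1 ≤ Y := le_trans (by unfold YY; omega) hY
  refine ⟨2 * n0 + 1, fun X hX γ => ?_⟩
  set Z : ℕ := X / 4 with hZ
  have hbigpow : C1 + C2 < q ^ ((X : ℤ) - 2 * Z) := by
    refine lt_of_lt_of_le hn0 ?_
    rw [← zpow_natCast]
    apply zpow_le_zpow_right₀ hq.le
    omega
  by_cases hex : ∃ P0 : I → ℕ, Win J Y X P0 ∧ ∑ l, α l * (P0 l : ℤ) = γ
  swap
  · refine ⟨fun _ => 1, ?_, ?_, ?_⟩
    · intro h0
      have := congrFun h0 (fun _ => 0)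
      simp at this
    · intro a
      simp only [Int.cast_one, abs_one]
      exact one_le_zpow₀ hq.le (by positivity)
    · intro P hP hγ
      exact absurd ⟨P, hP, hγ⟩ hex
  obtain ⟨P0, hw0, hP0⟩ := hex
  set H : ℕ := ⌊q ^ (N * D * X)⌋₊ with hH
  have hHle : (H : ℝ) ≤ q ^ ((N : ℤ) * D * X) := by
    have h1 := Nat.floor_le (show 0 ≤ q ^ (N * D * X) by positivity)
    rw [← hH] at h1
    refine h1.trans (le_of_eq ?_)
    rw [← zpow_natCast]; push_cast; rfl
  have hHlt : q ^ ((N : ℤ) * D * X) < (H : ℝ) + 1 := by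
    have h1 := Nat.lt_floor_add_one (q ^ (N * D * X))
    rw [← hH] at h1
    refine lt_of_le_of_lt (le_of_eq ?_) h1
    rw [← zpow_natCast]; push_cast; rfl
  set W : ℝ := q ^ γ with hW
  have hWpos : 0 < W := zpow_pos hq0 _
  -- the matrix
  let A : {r // r ∈ T} → (I → Fin (D + 1)) → ℝ := fun r a =>
    (∑ e ∈ (Box I R D).filter (fun e => rep α l0 e = r.1), Phi g R a e * W ^ (ndx α l0 e)) *
      q ^ ((∑ l, r.1 l) * (X : ℤ))
  have hAb : ∀ r a, |A r a| ≤ Bx * (K * q ^ ((N : ℤ) * D * X + 2 * (Z : ℤ))) := by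
    intro r a
    simp only [A]
    rw [sum_mul]
    refine (abs_sum_le_sum_abs _ _).trans ?_
    have hterm : ∀ e ∈ (Box I R D).filter (fun e => rep α l0 e = r.1),
        |Phi g R a e * W ^ (ndx α l0 e) * q ^ ((∑ l, r.1 l) * (X : ℤ))| ≤
          K * q ^ ((N : ℤ) * D * X + 2 * (Z : ℤ)) := by
      intro e he
      rw [mem_filter] at he
      by_cases hz : Phi g R a e = 0
      · rw [hz, zero_mul, zero_mul, abs_zero]
        positivity
      · rw [mul_assoc, abs_mul, ← he.2]
        have h1 := scale_le hq hw0 hY hP0 he.1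
        rw [abs_of_pos (mul_pos (zpow_pos hWpos _) (zpow_pos hq0 _))]
        apply mul_le_mul (hK a e) _ (by positivity) hK0
        refine h1.trans ?_
        apply zpow_le_zpow_right₀ hq.le
        have h2 := Phi_deg hz
        have h3 := mul_le_mul_of_nonneg_right h2 (show (0 : ℤ) ≤ (X : ℤ) by positivity)
        linarith
    refine (sum_le_sum hterm).trans ?_
    rw [sum_const, nsmul_eq_mul]
    apply mul_le_mul_of_nonneg_right _ (by positivity)
    rw [hBx]
    exact_mod_cast card_filter_le _ _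
  set S : ℝ := M * ((H : ℝ) * (Bx * (K * q ^ ((N : ℤ) * D * X + 2 * (Z : ℤ))))) with hS
  have hS0 : 0 ≤ S := by positivity
  set η : ℝ := q ^ (-(X : ℤ)) with hη
  have hη0 : 0 < η := zpow_pos hq0 _
  have hAS : ∀ (c : (I → Fin (D + 1)) → ℕ), (∀ a, c a ≤ H) → ∀ r, |∑ a, (c a : ℝ) * A r a| ≤ S := by
    intro c hc r
    refine (abs_sum_le_sum_abs _ _).trans ?_
    have hterm : ∀ a ∈ (univ : Finset (I → Fin (D + 1))), |(c a : ℝ) * A r a| ≤
        (H : ℝ) * (Bx * (K * q ^ ((N : ℤ) * D * X + 2 * (Z : ℤ)))) := by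
      intro a _
      rw [abs_mul, abs_of_nonneg (by positivity : (0 : ℝ) ≤ (c a : ℝ))]
      exact mul_le_mul (by exact_mod_cast hc a) (hAb r a) (abs_nonneg _) (by positivity)
    refine (sum_le_sum hterm).trans (le_of_eq ?_)
    rw [sum_const, nsmul_eq_mul, card_univ]
  have hcard : (2 * S / η + 1) ^ (Fintype.card {r // r ∈ T}) <
      ((H : ℝ) + 1) ^ (Fintype.card (I → Fin (D + 1))) := by
    have hb1 : 2 * S / η + 1 ≤ q ^ ((2 * (N : ℤ) * D + 2) * X) := by
      have e1 : 2 * S / η = 2 * (M * Bx * K) * ((H : ℝ) * q ^ ((N : ℤ) * D * X + 2 * (Z : ℤ) + X)) := by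
        rw [hS, hη, zpow_neg, zpow_add₀ hq0.ne' _ (X : ℤ)]
        field_simp
      have e2 : (H : ℝ) * q ^ ((N : ℤ) * D * X + 2 * (Z : ℤ) + X) ≤
          q ^ (2 * (N : ℤ) * D * X + 2 * (Z : ℤ) + X) := by
        calc (H : ℝ) * q ^ ((N : ℤ) * D * X + 2 * (Z : ℤ) + X)
            ≤ q ^ ((N : ℤ) * D * X) * q ^ ((N : ℤ) * D * X + 2 * (Z : ℤ) + X) :=
              mul_le_mul_of_nonneg_right hHle (by positivity)
          _ = _ := by rw [← zpow_add₀ hq0.ne']; congr 1; ring
      have e3 : (1 : ℝ) ≤ q ^ (2 * (N : ℤ) * D * X + 2 * (Z : ℤ) + X) :=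
        one_le_zpow₀ hq.le (by positivity)
      have e4 : 2 * S / η + 1 ≤ C1 * q ^ (2 * (N : ℤ) * D * X + 2 * (Z : ℤ) + X) := by
        rw [e1, hC1, add_mul, one_mul]
        have : 2 * (M * Bx * K) * ((H : ℝ) * q ^ ((N : ℤ) * D * X + 2 * (Z : ℤ) + X)) ≤
            2 * (M * Bx * K) * q ^ (2 * (N : ℤ) * D * X + 2 * (Z : ℤ) + X) :=
          mul_le_mul_of_nonneg_left e2 (by positivity)
        linarith
      have e5 : C1 ≤ q ^ ((X : ℤ) - 2 * Z) := by linarith
      calc 2 * S / η + 1 ≤ C1 * q ^ (2 * (N : ℤ) * D * X + 2 * (Z : ℤ) + X) := e4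
        _ ≤ q ^ ((X : ℤ) - 2 * Z) * q ^ (2 * (N : ℤ) * D * X + 2 * (Z : ℤ) + X) :=
            mul_le_mul_of_nonneg_right e5 (by positivity)
        _ = q ^ ((2 * (N : ℤ) * D + 2) * X) := by rw [← zpow_add₀ hq0.ne']; congr 1; ring
    have hcι : Fintype.card (I → Fin (D + 1)) = (D + 1) ^ N := by
      rw [Fintype.card_fun, Fintype.card_fin]
    have hcκ : Fintype.card {r // r ∈ T} = T.card := Fintype.card_coe T
    rw [hcκ, hcι]
    have hne : (D + 1) ^ N ≠ 0 := by positivity
    calc (2 * S / η + 1) ^ T.card ≤ (q ^ ((2 * (N : ℤ) * D + 2) * X)) ^ T.card :=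
          pow_le_pow_left₀ (by positivity) hb1 _
      _ = q ^ (((2 * (N : ℤ) * D + 2) * X) * T.card) := by rw [← zpow_natCast, ← zpow_mul]
      _ ≤ q ^ (((N : ℤ) * D * X) * ((D + 1) ^ N : ℕ)) := by
          apply zpow_le_zpow_right₀ hq.le
          have h1 : (2 * N * D + 2) * X * T.card ≤ N * D * X * (D + 1) ^ N := by
            have h2 : 1 ≤ N * D := Nat.mul_pos hN1 hD
            have h3 : (2 * N * D + 2) * X * T.card ≤ (4 * (N * D)) * X * T.card := by
              apply Nat.mul_le_mul_right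
              apply Nat.mul_le_mul_right
              nlinarith
            calc (2 * N * D + 2) * X * T.card ≤ (4 * (N * D)) * X * T.card := h3
              _ = N * D * X * (4 * T.card) := by ring
              _ ≤ N * D * X * (D + 1) ^ N := Nat.mul_le_mul_left _ hcount
          exact_mod_cast h1
      _ = (q ^ ((N : ℤ) * D * X)) ^ ((D + 1) ^ N) := by rw [← zpow_natCast, ← zpow_mul]
      _ < ((H : ℝ) + 1) ^ ((D + 1) ^ N) := pow_lt_pow_left₀ hHlt (by positivity) hne
  obtain ⟨c, hc0, hcH, hcA⟩ := siegel A S η hS0 hη0 H hAS hcard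
  have hcb : ∀ a, |(c a : ℝ)| ≤ q ^ ((N : ℤ) * D * X) := by
    intro a
    refine le_trans ?_ hHle
    have := hcH a
    rw [← Int.cast_abs]
    exact_mod_cast this
  refine ⟨c, hc0, hcb, fun P hw hP => ?_⟩
  -- the value is an integer of absolute value < 1
  have hval : |((∑ a, c a * ∏ l, (n (P l)) ^ (a l : ℕ) : ℤ) : ℝ)| < 1 := by
    set c' : (I → Fin (D + 1)) → ℝ := fun a => (c a : ℝ) with hc'
    have hexp := sum_class hq g R D α l0 c' γ P hP
    have hPw : ∀ l, P l ∈ J ∧ X ≤ P l ∧ P l ≤ 2 * X :=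
      fun l => ⟨(hw l).1, (hw l).2.1, hw.le_two hY1 l⟩
    have herr : |((∑ a, c a * ∏ l, (n (P l)) ^ (a l : ℕ) : ℤ) : ℝ) -
        ∑ a, c' a * ∑ e ∈ Box I R D, Phi g R a e * q ^ (∑ l, (P l : ℤ) * e l)| ≤
        M * Ce * q ^ (-(X : ℤ)) := by
      push_cast
      rw [← sum_sub_distrib]
      refine (abs_sum_le_sum_abs _ _).trans ?_
      have hterm : ∀ a ∈ (univ : Finset (I → Fin (D + 1))),
          |(c a : ℝ) * ∏ l, (n (P l) : ℝ) ^ (a l : ℕ) -
            c' a * ∑ e ∈ Box I R D, Phi g R a e * q ^ (∑ l, (P l : ℤ) * e l)| ≤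
            Ce * q ^ (-(X : ℤ)) := by
        intro a _
        rw [hc', ← mul_sub, abs_mul]
        calc |(c a : ℝ)| * |∏ l, (n (P l) : ℝ) ^ (a l : ℕ) -
              ∑ e ∈ Box I R D, Phi g R a e * q ^ (∑ l, (P l : ℤ) * e l)|
            ≤ q ^ ((N : ℤ) * D * X) * (Ce * q ^ ((2 * (N : ℤ) * D + D - R - 1) * X)) :=
              mul_le_mul (hcb a) (hCe X P hPw a) (abs_nonneg _) (by positivity)
          _ = Ce * q ^ ((3 * (N : ℤ) * D + D - R - 1) * X) := by
              rw [mul_left_comm, ← zpow_add₀ hq0.ne']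
              congr 2; ring
          _ ≤ Ce * q ^ (-(X : ℤ)) := by
              apply mul_le_mul_of_nonneg_left _ hCe0
              apply zpow_le_zpow_right₀ hq.le
              have h1 : ((3 * N * D + D : ℕ) : ℤ) ≤ R := by exact_mod_cast hR
              push_cast at h1
              have h2 : (3 * (N : ℤ) * D + D - R - 1) * X ≤ (-1) * X := by
                apply mul_le_mul_of_nonneg_right _ (by positivity)
                linarith
              linarith
      refine (sum_le_sum hterm).trans (le_of_eq ?_)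
      rw [sum_const, nsmul_eq_mul, card_univ]
      ring
    rw [hexp] at herr
    have hmainsum : |∑ r ∈ (Box I R D).image (rep α l0), vv g R D α l0 (q ^ γ) c' r *
        q ^ (∑ l, (P l : ℤ) * r l)| ≤ Bx * (1 + Bx * M * K) * q ^ (-(X : ℤ) + Z) := by
      refine (abs_sum_le_sum_abs _ _).trans ?_
      have hterm : ∀ r ∈ (Box I R D).image (rep α l0), |vv g R D α l0 (q ^ γ) c' r *
          q ^ (∑ l, (P l : ℤ) * r l)| ≤ (1 + Bx * M * K) * q ^ (-(X : ℤ) + Z) := by
        intro r hr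
        by_cases hrT : r ∈ T
        · have h1 := hcA ⟨r, hrT⟩
          have e1 : ∑ a, (c a : ℝ) * A ⟨r, hrT⟩ a =
              vv g R D α l0 (q ^ γ) c' r * q ^ ((∑ l, r l) * (X : ℤ)) := by
            simp only [A]
            unfold vv
            rw [sum_mul]
            simp_rw [← mul_assoc, mul_sum, sum_mul]
            rw [sum_comm]
            apply sum_congr rfl
            intro e _
            apply sum_congr rfl
            intro a _
            rw [hc', hW]
            ring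
          rw [e1] at h1
          obtain ⟨e, he, her⟩ := mem_image.mp hr
          have h2 := hw.dot r (by rw [← her]; exact (YY_box he).2.trans hY)
          rw [abs_le] at h2
          have h3 : q ^ (∑ l, (P l : ℤ) * r l) ≤ q ^ ((∑ l, r l) * (X : ℤ)) * q ^ (Z : ℤ) := by
            rw [← zpow_add₀ hq0.ne']
            apply zpow_le_zpow_right₀ hq.le
            linarith [h2.2]
          rw [abs_mul, abs_of_pos (zpow_pos hq0 _)]
          rw [abs_mul, abs_of_pos (zpow_pos hq0 ((∑ l, r l) * (X : ℤ)))] at h1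
          have h4 : (0 : ℝ) ≤ Bx * M * K := by positivity
          calc |vv g R D α l0 (q ^ γ) c' r| * q ^ (∑ l, (P l : ℤ) * r l)
              ≤ |vv g R D α l0 (q ^ γ) c' r| * (q ^ ((∑ l, r l) * (X : ℤ)) * q ^ (Z : ℤ)) :=
                mul_le_mul_of_nonneg_left h3 (abs_nonneg _)
            _ = (|vv g R D α l0 (q ^ γ) c' r| * q ^ ((∑ l, r l) * (X : ℤ))) * q ^ (Z : ℤ) := by ring
            _ ≤ η * q ^ (Z : ℤ) := mul_le_mul_of_nonneg_right h1 (by positivity)
            _ = q ^ (-(X : ℤ) + Z) := by rw [hη, ← zpow_add₀ hq0.ne']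
            _ ≤ (1 + Bx * M * K) * q ^ (-(X : ℤ) + Z) := by
                apply le_mul_of_one_le_left (by positivity)
                linarith
        · -- small scale
          have e1 : vv g R D α l0 (q ^ γ) c' r * q ^ (∑ l, (P l : ℤ) * r l) =
              ∑ e ∈ (Box I R D).filter (fun e => rep α l0 e = r), (∑ a, c' a * Phi g R a e) *
                q ^ (∑ l, (P l : ℤ) * e l) := by
            unfold vv
            rw [sum_mul]
            apply sum_congr rfl
            intro e he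
            rw [mem_filter] at he
            rw [dot_rep α l0 e P, hP, zpow_add₀ hq0.ne', he.2, mul_comm (ndx α l0 e) γ, zpow_mul]
            ring
          rw [e1]
          refine (abs_sum_le_sum_abs _ _).trans ?_
          have hterm2 : ∀ e ∈ (Box I R D).filter (fun e => rep α l0 e = r),
              |(∑ a, c' a * Phi g R a e) * q ^ (∑ l, (P l : ℤ) * e l)| ≤
                M * K * q ^ (-(X : ℤ) + Z) := by
            intro e he
            rw [mem_filter] at he
            have hle : ∑ l, e l ≤ -(2 * (N : ℤ) * D) := by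
              by_contra hlt
              push Not at hlt
              apply hrT
              rw [hT, mem_image]
              exact ⟨e, mem_filter.mpr ⟨he.1, hlt⟩, he.2⟩
            have h2 := hw.dot e ((YY_box he.1).1.trans hY)
            rw [abs_le] at h2
            have h3 : |∑ a, c' a * Phi g R a e| ≤ M * (q ^ ((N : ℤ) * D * X) * K) := by
              refine (abs_sum_le_sum_abs _ _).trans ?_
              have : ∀ a ∈ (univ : Finset (I → Fin (D + 1))), |c' a * Phi g R a e| ≤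
                  q ^ ((N : ℤ) * D * X) * K := by
                intro a _
                rw [abs_mul]
                exact mul_le_mul (hcb a) (hK a e) (abs_nonneg _) (by positivity)
              refine (sum_le_sum this).trans (le_of_eq ?_)
              rw [sum_const, nsmul_eq_mul, card_univ]
            rw [abs_mul, abs_of_pos (zpow_pos hq0 _)]
            calc |∑ a, c' a * Phi g R a e| * q ^ (∑ l, (P l : ℤ) * e l)
                ≤ (M * (q ^ ((N : ℤ) * D * X) * K)) * q ^ (-(2 * (N : ℤ) * D) * X + Z) := by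
                  apply mul_le_mul h3 _ (by positivity) (by positivity)
                  apply zpow_le_zpow_right₀ hq.le
                  have h5 := mul_le_mul_of_nonneg_right hle (show (0 : ℤ) ≤ (X : ℤ) by positivity)
                  linarith [h2.2]
              _ = M * K * q ^ ((N : ℤ) * D * X + (-(2 * (N : ℤ) * D) * X + Z)) := by
                  rw [zpow_add₀ hq0.ne' ((N : ℤ) * D * X)]; ring
              _ ≤ M * K * q ^ (-(X : ℤ) + Z) := by
                  apply mul_le_mul_of_nonneg_left _ (by positivity)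
                  apply zpow_le_zpow_right₀ hq.le
                  have h6 : (1 : ℤ) ≤ (N : ℤ) * D := by
                    have := Nat.mul_pos hN1 hD
                    exact_mod_cast this
                  have h7 := mul_le_mul_of_nonneg_right h6 (show (0 : ℤ) ≤ (X : ℤ) by positivity)
                  linarith
          refine (sum_le_sum hterm2).trans ?_
          rw [sum_const, nsmul_eq_mul]
          have h8 : (((Box I R D).filter (fun e => rep α l0 e = r)).card : ℝ) ≤ Bx := by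
            rw [hBx]; exact_mod_cast card_filter_le _ _
          calc (((Box I R D).filter (fun e => rep α l0 e = r)).card : ℝ) *
                (M * K * q ^ (-(X : ℤ) + Z)) ≤ Bx * (M * K * q ^ (-(X : ℤ) + Z)) :=
                mul_le_mul_of_nonneg_right h8 (by positivity)
            _ = (Bx * M * K) * q ^ (-(X : ℤ) + Z) := by ring
            _ ≤ _ := by
                apply mul_le_mul_of_nonneg_right _ (by positivity)
                linarith
      refine (sum_le_sum hterm).trans ?_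
      rw [sum_const, nsmul_eq_mul]
      have h9 : (((Box I R D).image (rep α l0)).card : ℝ) ≤ Bx := by
        rw [hBx]; exact_mod_cast card_image_le
      calc (((Box I R D).image (rep α l0)).card : ℝ) * ((1 + Bx * M * K) * q ^ (-(X : ℤ) + Z))
          ≤ Bx * ((1 + Bx * M * K) * q ^ (-(X : ℤ) + Z)) :=
            mul_le_mul_of_nonneg_right h9 (by positivity)
        _ = _ := by ring
    have h10 : q ^ (-(X : ℤ)) ≤ q ^ (-(X : ℤ) + Z) := by
      apply zpow_le_zpow_right₀ hq.le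
      have : (0 : ℤ) ≤ Z := by positivity
      linarith
    have h11 : |((∑ a, c a * ∏ l, (n (P l)) ^ (a l : ℕ) : ℤ) : ℝ)| ≤ C2 * q ^ (-(X : ℤ) + Z) := by
      have h12 := abs_add_le (((∑ a, c a * ∏ l, (n (P l)) ^ (a l : ℕ) : ℤ) : ℝ) -
        ∑ r ∈ (Box I R D).image (rep α l0), vv g R D α l0 (q ^ γ) c' r *
        q ^ (∑ l, (P l : ℤ) * r l)) (∑ r ∈ (Box I R D).image (rep α l0), vv g R D α l0 (q ^ γ) c' r *
        q ^ (∑ l, (P l : ℤ) * r l))
      rw [sub_add_cancel] at h12
      have h13 : M * Ce * q ^ (-(X : ℤ)) ≤ M * Ce * q ^ (-(X : ℤ) + Z) :=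
        mul_le_mul_of_nonneg_left h10 (by positivity)
      rw [hC2, add_mul]
      linarith
    have h14 : q ^ ((X : ℤ) - 2 * Z) ≤ q ^ ((X : ℤ) - Z) := by
      apply zpow_le_zpow_right₀ hq.le
      have : (0 : ℤ) ≤ Z := by positivity
      linarith
    have h15 : C2 < q ^ ((X : ℤ) - Z) := by linarith
    calc |((∑ a, c a * ∏ l, (n (P l)) ^ (a l : ℕ) : ℤ) : ℝ)| ≤ C2 * q ^ (-(X : ℤ) + Z) := h11
      _ < q ^ ((X : ℤ) - Z) * q ^ (-(X : ℤ) + Z) := mul_lt_mul_of_pos_right h15 (zpow_pos hq0 _)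
      _ = 1 := by rw [← zpow_add₀ hq0.ne']; simp
  have h16 : |∑ a, c a * ∏ l, (n (P l)) ^ (a l : ℕ)| < 1 := by
    have : ((|∑ a, c a * ∏ l, (n (P l)) ^ (a l : ℕ)| : ℤ) : ℝ) < ((1 : ℤ) : ℝ) := by
      rw [Int.cast_abs, Int.cast_one]; exact hval
    exact_mod_cast this
  exact Int.abs_lt_one_iff.mp h16

end Pool.Agent.H25.LE
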