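import Pool.Agent.H25.LE.Pol

/-!
The tie step: the tuples of a window with given `α·P` are covered by a bounded number of
hyperplanes not parallel to `α`.
-/

namespace Pool.Agent.H25.LE

open Finset

variable {I : Type} [Fintype I] [DecidableEq I]

lemma mem_Box_of_Phi {g : PowerSeries ℝ} {R D : ℕ} {a : I → Fin (D + 1)} {e : I → ℤ}
    (h : Phi g R a e ≠ 0) : e ∈ Box I R D := by
  unfold Box
  rw [Fintype.mem_piFinset]
  intro l
  rw [mem_Icc]
  have h1 := Phi_zero_of h l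
  have := (a l).isLt
  constructor <;> omega

lemma vv_uu (g : PowerSeries ℝ) (R D B : ℕ) (α : I → ℤ) (l0 : I) (h0 : 0 < α l0) {W : ℝ}
    (hW : 0 < W) (c : (I → Fin (D + 1)) → ℝ) (e0 : I → ℤ)
    (hB : ∀ e ∈ Box I R D, |ndx α l0 e - ndx α l0 e0| ≤ B) :
    vv g R D α l0 W c (rep α l0 e0) = W ^ (ndx α l0 e0) * uu g R D B α W c e0 := by
  classical
  unfold vv uu
  rw [mul_sum]
  have h1 : ∑ n ∈ Icc (-(B : ℤ)) B, W ^ (ndx α l0 e0) *
      (W ^ n * ∑ a, c a * Phi g R a (e0 + n • α)) =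
      ∑ n ∈ (Icc (-(B : ℤ)) B).filter (fun n => e0 + n • α ∈ Box I R D), W ^ (ndx α l0 e0) *
      (W ^ n * ∑ a, c a * Phi g R a (e0 + n • α)) := by
    symm
    apply sum_subset (filter_subset _ _)
    intro n hn hn'
    have : ∑ a, c a * Phi g R a (e0 + n • α) = 0 := by
      apply sum_eq_zero
      intro a _
      by_contra hne
      apply hn'
      rw [mem_filter]
      exact ⟨hn, mem_Box_of_Phi (right_ne_zero_of_mul hne)⟩
    rw [this, mul_zero, mul_zero]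
  rw [h1]
  symm
  apply sum_nbij' (fun n => e0 + n • α) (fun e => ndx α l0 e - ndx α l0 e0)
  · intro n hn
    rw [mem_filter] at hn
    rw [mem_filter]
    exact ⟨hn.2, rep_add_smul α l0 h0 e0 n⟩
  · intro e he
    rw [mem_filter] at he
    rw [mem_filter, mem_Icc]
    refine ⟨abs_le.mp (hB e he.1), ?_⟩
    rw [← eq_of_rep α l0 he.2]
    exact he.1
  · intro n hn
    rw [ndx_add α l0 h0]
    ring
  · intro e he
    rw [mem_filter] at he
    exact (eq_of_rep α l0 he.2).symm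
  · intro n hn
    rw [ndx_add α l0 h0, zpow_add₀ hW.ne']
    ring

/-- **Covering by hyperplanes.** -/
theorem cover {q : ℝ} (hq : 1 < q) {g : PowerSeries ℝ}
    (hg0 : PowerSeries.constantCoeff g ≠ 0) (hg : NoRel g)
    (α : I → ℤ) (hprim : ∀ (β : I → ℤ) (a b : ℤ), a ≠ 0 → a • β = b • α → ∃ k : ℤ, β = k • α)
    (hα : ∀ l, α l ≠ 0) (hσ : 0 < ∑ l, α l) (hI : 2 ≤ Fintype.card I) :
    ∃ (R Y C : ℕ) (Bs : Finset (I → ℤ)), 1 ≤ Y ∧
      (∀ β ∈ Bs, ∀ a b : ℤ, a ≠ 0 → a • β ≠ b • α) ∧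
      ∀ (J : Set ℕ) (n : ℕ → ℤ), HasExp q g R J n → ∃ X0 : ℕ,
      ∀ X, X0 ≤ X → ∀ γ : ℤ, ∃ Hs : Finset ((I → ℤ) × ℤ), Hs.card ≤ C ∧ (∀ x ∈ Hs, x.1 ∈ Bs) ∧
        ∀ P : I → ℕ, Win J Y X P → ∑ l, α l * (P l : ℤ) = γ →
          ∃ x ∈ Hs, ∑ l, x.1 l * (P l : ℤ) = x.2 := by
  classical
  have hq0 : 0 < q := by linarith
  obtain ⟨l0, h0⟩ : ∃ l0, 0 < α l0 := by
    by_contra hne
    push Not at hne
    have := sum_nonpos (s := univ) (f := α) (fun l _ => hne l)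
    linarith
  obtain ⟨l1, hl1⟩ : ∃ l1, l1 ≠ l0 := by
    have : Nontrivial I := Fintype.one_lt_card_iff_nontrivial.mp hI
    exact exists_ne l0
  set N : ℕ := Fintype.card I with hN
  obtain ⟨D, hD4, hcount⟩ := class_count α l0 h0
  obtain ⟨E0, c0, R0, hc0, hlow⟩ := low g hg0 hg D α l0 l1 hl1.symm h0 (hα l1)
  set κ : ℕ := ∑ e ∈ E0, ∑ l, (e l).natAbs with hκ
  set R : ℕ := R0 + 3 * N * D + D + 2 * κ + 1 with hR
  set B : ℕ := D + ∑ e ∈ Box I R D, (ndx α l0 e).natAbs + ∑ e ∈ E0, (ndx α l0 e).natAbs with hB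
  obtain ⟨W0, hW0⟩ := hlow R (by omega) B (by omega)
  set Y : ℕ := YY I R D α l0 + 4 * ∑ l, (α l).natAbs with hY
  set M : ℝ := (Fintype.card (I → Fin (D + 1)) : ℝ) with hM
  have hM0 : 0 ≤ M := by positivity
  set Rs : Finset (I → ℤ) := (Box I R D).image (rep α l0) with hRs
  set F : ℝ := (Rs.card : ℝ) with hF
  have hF0 : 0 ≤ F := by positivity
  obtain ⟨n1, hn1⟩ := pow_unbounded_of_one_lt (W0) hq
  obtain ⟨F', hF'⟩ := pow_unbounded_of_one_lt (2 * F) hq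
  have hY1 : 1 ≤ Y := by rw [hY]; unfold YY; omega
  let Bs : Finset (I → ℤ) := (Rs.offDiag).image (fun x => x.1 - x.2)
  refine ⟨R, Y, (Rs.offDiag ×ˢ range (F' + 1)).card, Bs, hY1, ?_, ?_⟩
  · intro β hβ a b ha hab
    simp only [Bs, mem_image, mem_offDiag] at hβ
    obtain ⟨⟨r1, r2⟩, ⟨hr1, hr2, hne⟩, rfl⟩ := hβ
    simp only at hr1 hr2 hne hab
    obtain ⟨k, hk⟩ := hprim _ a b ha hab
    obtain ⟨e1, he1, rfl⟩ := mem_image.mp hr1
    obtain ⟨e2, he2, rfl⟩ := mem_image.mp hr2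
    apply hne
    have h1 : rep α l0 e1 = rep α l0 e2 + k • α := by rw [← hk]; abel
    have h2 : ∀ e, rep α l0 (rep α l0 e) = rep α l0 e := by
      intro e
      have := rep_add_smul α l0 h0 (rep α l0 e) (ndx α l0 e)
      rw [← rep_add] at this
      exact this.symm
    have h3 := congrArg (rep α l0) h1
    rw [rep_add_smul α l0 h0, h2, h2] at h3
    exact h3
  intro J n h
  obtain ⟨X1, haux⟩ := auxpol hq α l0 D (by omega) R h (hcount R)
    (by rw [← hN]; omega) Y (by omega)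
  obtain ⟨Ce, hCe0, hCe⟩ := prod_exp (I := I) hq R D h (by omega)
  obtain ⟨n2, hn2⟩ := pow_unbounded_of_one_lt (2 * (M * Ce) / c0) hq
  refine ⟨X1 + 2 * n1 + n2, ?_⟩
  intro X hX γ
  by_cases hex : ∃ P0 : I → ℕ, Win J Y X P0 ∧ ∑ l, α l * (P0 l : ℤ) = γ
  swap
  · exact ⟨∅, by simp, by simp, fun P hP hγ => absurd ⟨P, hP, hγ⟩ hex⟩
  obtain ⟨P0, hw0, hP0⟩ := hex
  -- `W` is large
  have hγ : (n1 : ℤ) ≤ γ := by
    have h1 := hw0.dot α (by omega)
    have h2 : ∑ l, (P0 l : ℤ) * α l = γ := by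
      rw [← hP0]; exact sum_congr rfl (fun l _ => mul_comm _ _)
    rw [h2, abs_le] at h1
    have h3 : 1 * (X : ℤ) ≤ (∑ l, α l) * X := mul_le_mul_of_nonneg_right hσ (by positivity)
    have h4 := h1.1
    omega
  set W : ℝ := q ^ γ with hW
  have hWpos : 0 < W := zpow_pos hq0 _
  have hWW : W0 ≤ W := by
    refine hn1.le.trans ?_
    rw [hW, ← zpow_natCast]
    exact zpow_le_zpow_right₀ hq.le hγ
  obtain ⟨c, hcne, hcb, hcv⟩ := haux X (by omega) γ
  set c' : (I → Fin (D + 1)) → ℝ := fun a => (c a : ℝ) with hc'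
  have hnorm : 1 ≤ ‖c'‖ := by
    obtain ⟨a, ha⟩ : ∃ a, c a ≠ 0 := by
      by_contra hall
      push Not at hall
      exact hcne (funext hall)
    have h1 : ‖c' a‖ ≤ ‖c'‖ := norm_le_pi_norm c' a
    have h2 : (1 : ℝ) ≤ ‖c' a‖ := by
      rw [hc', Real.norm_eq_abs, ← Int.cast_abs]
      have := Int.one_le_abs ha
      exact_mod_cast this
    linarith
  obtain ⟨e0, he0, hlow0⟩ := hW0 W hWW c'
  have hlow1 : c0 ≤ |uu g R D B α W c' e0| := by nlinarith
  have hBe : ∀ e ∈ Box I R D, |ndx α l0 e - ndx α l0 e0| ≤ B := by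
    intro e he
    have h1 : (ndx α l0 e).natAbs ≤ ∑ e ∈ Box I R D, (ndx α l0 e).natAbs :=
      single_le_sum (f := fun e : I → ℤ => (ndx α l0 e).natAbs) (fun _ _ => Nat.zero_le _) he
    have h2 : (ndx α l0 e0).natAbs ≤ ∑ e ∈ E0, (ndx α l0 e).natAbs :=
      single_le_sum (f := fun e : I → ℤ => (ndx α l0 e).natAbs) (fun _ _ => Nat.zero_le _) he0
    rw [abs_le]
    constructor <;> omega
  have hvu := vv_uu g R D B α l0 h0 hWpos c' e0 hBe
  set r0 : I → ℤ := rep α l0 e0 with hr0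
  have hr0mem : r0 ∈ Rs := by
    by_contra hnot
    have h1 : vv g R D α l0 W c' r0 = 0 := by
      unfold vv
      apply sum_eq_zero
      intro e he
      rw [mem_filter] at he
      exact absurd (mem_image.mpr ⟨e, he.1, he.2⟩) hnot
    rw [h1] at hvu
    have h2 : uu g R D B α W c' e0 = 0 := by
      rcases mul_eq_zero.mp hvu.symm with h3 | h3
      · exact absurd h3 (zpow_pos hWpos _).ne'
      · exact h3
    rw [h2, abs_zero] at hlow1
    linarith
  -- the hyperplanes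
  let z : (I → ℤ) → (I → ℤ) → ℤ := fun r1 r2 =>
    ⌈Real.logb q (|vv g R D α l0 W c' r2| / |vv g R D α l0 W c' r1|)⌉
  refine ⟨(Rs.offDiag ×ˢ range (F' + 1)).image
    (fun x => (x.1.1 - x.1.2, z x.1.1 x.1.2 + (x.2 : ℤ))), card_image_le, ?_, ?_⟩
  · intro x hx
    rw [mem_image] at hx
    obtain ⟨⟨⟨r1, r2⟩, s⟩, hmem, rfl⟩ := hx
    rw [mem_product] at hmem
    exact mem_image.mpr ⟨(r1, r2), hmem.1, rfl⟩
  intro P hw hP
  set f : (I → ℤ) → ℝ := fun r => |vv g R D α l0 W c' r| * q ^ (∑ l, (P l : ℤ) * r l) with hf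
  have hf0 : ∀ r, 0 ≤ f r := fun r => by simp only [hf]; positivity
  -- the total is tiny
  have htot : |∑ r ∈ Rs, vv g R D α l0 W c' r * q ^ (∑ l, (P l : ℤ) * r l)| ≤
      M * Ce * q ^ (-((2 * (κ : ℤ) + 1) * X)) := by
    have hexp := sum_class hq g R D α l0 c' γ P hP
    have hPw : ∀ l, P l ∈ J ∧ X ≤ P l ∧ P l ≤ 2 * X :=
      fun l => ⟨(hw l).1, (hw l).2.1, hw.le_two hY1 l⟩
    rw [← hexp]
    have hzero : ∑ a, c' a * ∏ l, (n (P l) : ℝ) ^ (a l : ℕ) = 0 := by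
      have h1 := hcv P hw hP
      have h2 : ((∑ a, c a * ∏ l, (n (P l)) ^ (a l : ℕ) : ℤ) : ℝ) = 0 := by rw [h1]; simp
      push_cast at h2
      exact h2
    have e1 : ∑ a, c' a * ∑ e ∈ Box I R D, Phi g R a e * q ^ (∑ l, (P l : ℤ) * e l) =
        -(∑ a, c' a * (∏ l, (n (P l) : ℝ) ^ (a l : ℕ) -
          ∑ e ∈ Box I R D, Phi g R a e * q ^ (∑ l, (P l : ℤ) * e l))) := by
      simp_rw [mul_sub]
      rw [sum_sub_distrib, hzero]
      ring
    rw [e1, abs_neg]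
    refine (abs_sum_le_sum_abs _ _).trans ?_
    have hterm : ∀ a ∈ (univ : Finset (I → Fin (D + 1))),
        |c' a * (∏ l, (n (P l) : ℝ) ^ (a l : ℕ) -
          ∑ e ∈ Box I R D, Phi g R a e * q ^ (∑ l, (P l : ℤ) * e l))| ≤
          Ce * q ^ (-((2 * (κ : ℤ) + 1) * X)) := by
      intro a _
      rw [abs_mul]
      calc |c' a| * |∏ l, (n (P l) : ℝ) ^ (a l : ℕ) -
            ∑ e ∈ Box I R D, Phi g R a e * q ^ (∑ l, (P l : ℤ) * e l)|
          ≤ q ^ ((N : ℤ) * D * X) * (Ce * q ^ ((2 * (N : ℤ) * D + D - R - 1) * X)) :=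
            mul_le_mul (hcb a) (hCe X P hPw a) (abs_nonneg _) (by positivity)
        _ = Ce * q ^ ((3 * (N : ℤ) * D + D - R - 1) * X) := by
            rw [mul_left_comm, ← zpow_add₀ hq0.ne']
            congr 2; ring
        _ ≤ Ce * q ^ (-((2 * (κ : ℤ) + 1) * X)) := by
            apply mul_le_mul_of_nonneg_left _ hCe0
            apply zpow_le_zpow_right₀ hq.le
            have h1 : (3 * (N : ℤ) * D + D - R - 1) ≤ -(2 * (κ : ℤ) + 1) := by
              rw [hR]; push_cast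
              have : (0 : ℤ) ≤ (R0 : ℤ) := by positivity
              linarith
            have h2 := mul_le_mul_of_nonneg_right h1 (show (0 : ℤ) ≤ (X : ℤ) by positivity)
            linarith
    refine (sum_le_sum hterm).trans (le_of_eq ?_)
    rw [sum_const, nsmul_eq_mul, card_univ]
    ring
  -- the term of `r0` is not so tiny
  have hr0low : c0 * q ^ (-(2 * (κ : ℤ) * X)) ≤ f r0 := by
    simp only [hf]
    rw [hvu, abs_mul, abs_of_pos (zpow_pos hWpos _)]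
    have e1 : W ^ (ndx α l0 e0) * |uu g R D B α W c' e0| * q ^ (∑ l, (P l : ℤ) * r0 l) =
        |uu g R D B α W c' e0| * q ^ (∑ l, (P l : ℤ) * e0 l) := by
      rw [dot_rep α l0 e0 P, hP, zpow_add₀ hq0.ne', mul_comm (ndx α l0 e0) γ, zpow_mul, ← hW, ← hr0]
      ring
    rw [e1]
    apply mul_le_mul hlow1 _ (by positivity) (abs_nonneg _)
    apply zpow_le_zpow_right₀ hq.le
    have h1 : |∑ l, (P l : ℤ) * e0 l| ≤ 2 * (κ : ℤ) * X := by
      refine (abs_sum_le_sum_abs _ _).trans ?_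
      have h2 : ∀ l ∈ (univ : Finset I), |(P l : ℤ) * e0 l| ≤ (2 * (X : ℤ)) * ((e0 l).natAbs : ℤ) := by
        intro l _
        rw [abs_mul, Int.natCast_natAbs, abs_of_nonneg (by positivity : (0 : ℤ) ≤ (P l : ℤ))]
        apply mul_le_mul_of_nonneg_right _ (abs_nonneg _)
        exact_mod_cast hw.le_two hY1 l
      refine (sum_le_sum h2).trans ?_
      rw [← mul_sum]
      have h3 : ∑ l, (e0 l).natAbs ≤ κ :=
        single_le_sum (f := fun e : I → ℤ => ∑ l, (e l).natAbs) (fun _ _ => Nat.zero_le _) he0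
      have h4 : (∑ l, ((e0 l).natAbs : ℤ)) ≤ κ := by exact_mod_cast h3
      have h5 := mul_le_mul_of_nonneg_left h4 (show (0 : ℤ) ≤ 2 * (X : ℤ) by positivity)
      linarith
    have := neg_abs_le (∑ l, (P l : ℤ) * e0 l)
    linarith
  -- the largest term
  obtain ⟨r1, hr1, hmax⟩ := exists_max_image Rs f ⟨r0, hr0mem⟩
  have hm1 : c0 * q ^ (-(2 * (κ : ℤ) * X)) ≤ f r1 := hr0low.trans (hmax r0 hr0mem)
  have hm1pos : 0 < f r1 := lt_of_lt_of_le (by positivity) hm1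
  have hhalf : M * Ce * q ^ (-((2 * (κ : ℤ) + 1) * X)) < f r1 / 2 := by
    have h1 : 2 * (M * Ce) / c0 < q ^ (X : ℤ) := by
      refine lt_of_lt_of_le hn2 ?_
      rw [← zpow_natCast]
      apply zpow_le_zpow_right₀ hq.le
      omega
    rw [div_lt_iff₀ hc0] at h1
    have h2 : q ^ (-((2 * (κ : ℤ) + 1) * X)) = q ^ (-(2 * (κ : ℤ) * X)) * q ^ (-(X : ℤ)) := by
      rw [← zpow_add₀ hq0.ne']; congr 1; ring
    have h3 : q ^ (X : ℤ) * q ^ (-(X : ℤ)) = 1 := by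
      rw [← zpow_add₀ hq0.ne']; simp
    have h4 : 0 < q ^ (-(X : ℤ)) := zpow_pos hq0 _
    have h5 : 0 < q ^ (-(2 * (κ : ℤ) * X)) := zpow_pos hq0 _
    have h6 : 2 * (M * Ce) * q ^ (-(X : ℤ)) < c0 := by
      calc 2 * (M * Ce) * q ^ (-(X : ℤ)) < (q ^ (X : ℤ) * c0) * q ^ (-(X : ℤ)) :=
            mul_lt_mul_of_pos_right h1 h4
        _ = c0 * (q ^ (X : ℤ) * q ^ (-(X : ℤ))) := by ring
        _ = c0 := by rw [h3, mul_one]
    have h7 : 2 * (M * Ce) * q ^ (-(X : ℤ)) * q ^ (-(2 * (κ : ℤ) * X)) <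
        c0 * q ^ (-(2 * (κ : ℤ) * X)) := mul_lt_mul_of_pos_right h6 h5
    rw [h2]
    linarith
  -- a rival
  obtain ⟨r2, hr2, hne, hriv⟩ : ∃ r2 ∈ Rs, r2 ≠ r1 ∧ f r1 ≤ 2 * F * f r2 := by
    by_contra hcon
    push Not at hcon
    have h1 : |vv g R D α l0 W c' r1 * q ^ (∑ l, (P l : ℤ) * r1 l)| ≤
        |∑ r ∈ Rs, vv g R D α l0 W c' r * q ^ (∑ l, (P l : ℤ) * r l)| +
          ∑ r ∈ Rs.erase r1, f r := by
      have e1 : vv g R D α l0 W c' r1 * q ^ (∑ l, (P l : ℤ) * r1 l) =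
          ∑ r ∈ Rs, vv g R D α l0 W c' r * q ^ (∑ l, (P l : ℤ) * r l) -
            ∑ r ∈ Rs.erase r1, vv g R D α l0 W c' r * q ^ (∑ l, (P l : ℤ) * r l) := by
        rw [← add_sum_erase Rs _ hr1]; ring
      rw [e1]
      refine (abs_sub _ _).trans ?_
      apply add_le_add le_rfl
      refine (abs_sum_le_sum_abs _ _).trans (le_of_eq ?_)
      apply sum_congr rfl
      intro r _
      rw [abs_mul, abs_of_pos (zpow_pos hq0 _)]
    have h2 : |vv g R D α l0 W c' r1 * q ^ (∑ l, (P l : ℤ) * r1 l)| = f r1 := by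
      rw [abs_mul, abs_of_pos (zpow_pos hq0 _)]
    rw [h2] at h1
    have h3 : 2 * F * ∑ r ∈ Rs.erase r1, f r ≤ F * f r1 := by
      rw [mul_sum]
      calc ∑ r ∈ Rs.erase r1, 2 * F * f r ≤ ∑ _r ∈ Rs.erase r1, f r1 := by
            apply sum_le_sum
            intro r hr
            rw [mem_erase] at hr
            exact (hcon r hr.2 hr.1).le
        _ = ((Rs.erase r1).card : ℝ) * f r1 := by rw [sum_const, nsmul_eq_mul]
        _ ≤ F * f r1 := by
            apply mul_le_mul_of_nonneg_right _ (hf0 r1)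
            rw [hF]
            exact_mod_cast card_erase_le
    have hFpos : 0 < F := by
      rw [hF]; exact_mod_cast card_pos.mpr ⟨r1, hr1⟩
    have h4 : ∑ r ∈ Rs.erase r1, f r ≤ f r1 / 2 := by
      have h5 : F * (2 * ∑ r ∈ Rs.erase r1, f r) ≤ F * f r1 := by linarith
      have := le_of_mul_le_mul_left h5 hFpos
      linarith
    linarith
  -- conclusion
  have hFpos : 0 < F := by
    rw [hF]; exact_mod_cast card_pos.mpr ⟨r1, hr1⟩
  have hf2 : 0 < f r2 := by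
    by_contra hle
    push Not at hle
    have : f r2 = 0 := le_antisymm hle (hf0 r2)
    rw [this, mul_zero] at hriv
    linarith
  have hv1 : 0 < |vv g R D α l0 W c' r1| := by
    by_contra hle
    have h1 : |vv g R D α l0 W c' r1| = 0 := le_antisymm (not_lt.mp hle) (abs_nonneg _)
    simp only [hf] at hm1pos
    rw [h1, zero_mul] at hm1pos
    exact lt_irrefl _ hm1pos
  have hv2 : 0 < |vv g R D α l0 W c' r2| := by
    by_contra hle
    have h1 : |vv g R D α l0 W c' r2| = 0 := le_antisymm (not_lt.mp hle) (abs_nonneg _)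
    simp only [hf] at hf2
    rw [h1, zero_mul] at hf2
    exact lt_irrefl _ hf2
  set ρ : ℝ := |vv g R D α l0 W c' r2| / |vv g R D α l0 W c' r1| with hρ
  have hρ0 : 0 < ρ := div_pos hv2 hv1
  set m : ℤ := ∑ l, (P l : ℤ) * r1 l - ∑ l, (P l : ℤ) * r2 l with hm
  have hqm : q ^ m = q ^ (∑ l, (P l : ℤ) * r1 l) / q ^ (∑ l, (P l : ℤ) * r2 l) := by
    rw [hm, zpow_sub₀ hq0.ne']
  have hlo : ρ ≤ q ^ m := by
    rw [hqm, hρ, div_le_div_iff₀ hv1 (zpow_pos hq0 _)]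
    have := hmax r2 hr2
    simp only [hf] at this
    linarith
  have hhi : q ^ m ≤ 2 * F * ρ := by
    rw [hqm, hρ, div_le_iff₀ (zpow_pos hq0 _)]
    simp only [hf] at hriv
    have e1 : 2 * F * (|vv g R D α l0 W c' r2| / |vv g R D α l0 W c' r1|) *
        q ^ (∑ l, (P l : ℤ) * r2 l) = (2 * F * (|vv g R D α l0 W c' r2| *
        q ^ (∑ l, (P l : ℤ) * r2 l))) / |vv g R D α l0 W c' r1| := by ring
    rw [e1, le_div_iff₀ hv1]
    linarith
  have hz1 : z r1 r2 ≤ m := by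
    simp only [z]
    rw [Int.ceil_le, Real.logb_le_iff_le_rpow hq hρ0, Real.rpow_intCast]
    exact hlo
  have hz2 : m ≤ z r1 r2 + F' := by
    by_contra hlt
    push Not at hlt
    have h1 : ρ ≤ q ^ (z r1 r2) := by
      have := Int.le_ceil (Real.logb q ρ)
      rw [Real.logb_le_iff_le_rpow hq hρ0, Real.rpow_intCast] at this
      exact this
    have h2 : q ^ (z r1 r2 + (F' : ℤ)) < q ^ m := zpow_lt_zpow_right₀ hq hlt
    rw [zpow_add₀ hq0.ne', zpow_natCast] at h2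
    have h3 : 2 * F * ρ ≤ q ^ F' * q ^ (z r1 r2) := mul_le_mul hF'.le h1 hρ0.le (by positivity)
    linarith [mul_comm (q ^ F') (q ^ (z r1 r2))]
  refine ⟨(r1 - r2, z r1 r2 + ((m - z r1 r2).toNat : ℤ)), ?_, ?_⟩
  · rw [mem_image]
    refine ⟨((r1, r2), (m - z r1 r2).toNat), ?_, rfl⟩
    rw [mem_product, mem_offDiag, mem_range]
    refine ⟨⟨hr1, hr2, hne.symm⟩, by omega⟩
  · have e1 : ∑ l, (r1 - r2) l * (P l : ℤ) = m := by
      rw [hm, ← sum_sub_distrib]
      apply sum_congr rfl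
      intro l _
      simp only [Pi.sub_apply]
      ring
    change ∑ l, (r1 - r2) l * (P l : ℤ) = z r1 r2 + ((m - z r1 r2).toNat : ℤ)
    rw [e1]
    omega

end Pool.Agent.H25.LE
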